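import Pool.Agent.Q153.KZ.SPBa

/-!
# Project KZ (helper18), job KZ-SPB: large part composed of small host primes
-/

set_option autoImplicit false

namespace Pool.Agent.Q153.KZ

open Finset Filter Topology
open scoped Classical
open Pool.Agent.W76.MO (hh nc cell lp Rough hh_pos nc_mul)
open Q236.CM (LP LP_one LP_mul LP_prime LP_nonneg LP_le LP_div LP_pow LP_mul_fun LP_one_le)
open Pool.Agent.Q18.KZ
open Pool.Agent.Q102.KZ (aV_nn gu_nn gh_nn ww_nn)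
open Pool.Agent.Q222.KZ (r2 r2n r2pos r2mono hh_le hh_le_half E_half mem_cell)

variable (E : KEnv) (V : ℕ → Bool)

lemma SV_nn (m : ℕ) : 0 ≤ SV V m := by
  unfold SV
  exact sum_nonneg fun l _ => mul_nonneg (Real.rpow_nonneg (Nat.cast_nonneg l) _)
    (inv_nonneg.mpr (Nat.cast_nonneg _))

/-- the inner sum -/
lemma inner {j i k b : ℕ} (hVR : EvR j V) (hji : j ≤ i) (hi : 10 ^ 7 ≤ i) (hk : k < nc E.δ i)
    (hXb : (2 : ℝ) ^ ((i : ℝ) / 10 ^ 6) ≤ b)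
    (hbX : (b : ℝ) < (2 : ℝ) ^ ((i : ℝ) / 10 ^ 6) * (2 : ℝ) ^ ((i : ℝ) / 10 ^ 6)) :
    ∑ n ∈ (Ioc ((2 ^ i + k * hh E.δ i) / b) ((2 ^ i + k * hh E.δ i + hh E.δ i) / b)).filter (Rg j),
      SV V n ≤ (2 : ℝ) ^ (e0 * i) *
        (2 * (hh E.δ i : ℝ) / 2 ^ i + 4 * (2 : ℝ) ^ (-(1 / 2 + 8 / 10 ^ 6) * (i : ℝ))) := by
  have hiR : (10 : ℝ) ^ 7 ≤ i := by exact_mod_cast hi
  have hi0 : (0 : ℝ) < i := by linarith
  obtain ⟨h, hh'⟩ : ∃ h, h = hh E.δ i := ⟨_, rfl⟩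
  obtain ⟨A, hA⟩ : ∃ A, A = 2 ^ i + k * hh E.δ i := ⟨_, rfl⟩
  have hh1 : (h : ℝ) ≤ (2 : ℝ) ^ ((i : ℝ) / 2) := by
    rw [hh']; exact hh_le_half E.hδ (E_half E) i
  have hAh : A + h ≤ 2 ^ (i + 1) := by
    have h1 := nc_mul E.δ E.hδ i
    have h2 : (k + 1) * hh E.δ i ≤ nc E.δ i * hh E.δ i := Nat.mul_le_mul_right _ hk
    rw [hA, hh', pow_succ]
    nlinarith
  have hA2 : 2 ^ i ≤ A := by rw [hA]; exact Nat.le_add_right _ _
  rw [← hA, ← hh']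
  have hb16 : (16 : ℝ) ≤ b := by
    refine le_trans ?_ hXb
    have : (16 : ℝ) = (2 : ℝ) ^ (4 : ℝ) := by
      rw [show (4 : ℝ) = ((4 : ℕ) : ℝ) by norm_num, Real.rpow_natCast]
      norm_num
    rw [this]
    apply r2mono
    rw [le_div_iff₀ (by norm_num)]
    linarith
  have hbR : (0 : ℝ) < b := by linarith
  have hb0 : 0 < b := by exact_mod_cast hbR
  have hbX' : (b : ℝ) < (2 : ℝ) ^ (2 * (i : ℝ) / 10 ^ 6) := by
    rw [← r2] at hbX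
    refine hbX.trans_le (le_of_eq ?_)
    congr 1
    ring
  have hbH : (b : ℝ) ≤ (2 : ℝ) ^ ((i : ℝ) / 2) := by
    refine hbX'.le.trans (r2mono ?_)
    linarith
  obtain ⟨a, ha⟩ : ∃ a, a = A / b := ⟨_, rfl⟩
  obtain ⟨c, hc⟩ : ∃ c, c = (A + h) / b := ⟨_, rfl⟩
  rw [← ha, ← hc]
  have ha1 : a * b ≤ A := by rw [ha]; exact Nat.div_mul_le_self A b
  have ha2 : A < (a + 1) * b := by
    rw [ha, mul_comm]; exact Nat.lt_mul_div_succ A hb0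
  have hc1 : c * b ≤ A + h := by rw [hc]; exact Nat.div_mul_le_self _ b
  have hac : a ≤ c := by rw [ha, hc]; exact Nat.div_le_div_right (Nat.le_add_right _ _)
  have haR2 : (A : ℝ) < (a + 1) * b := by exact_mod_cast ha2
  have hcR : (c : ℝ) * b ≤ A + h := by exact_mod_cast hc1
  have hAR : (2 : ℝ) ^ (i : ℝ) ≤ A := by
    rw [← r2n]
    exact_mod_cast hA2
  have hii : (2 : ℝ) ^ (i : ℝ) = (2 : ℝ) ^ ((i : ℝ) / 2) * (2 : ℝ) ^ ((i : ℝ) / 2) := by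
    rw [← r2]
    congr 1
    ring
  obtain ⟨H, hH⟩ : ∃ H : ℝ, H = (2 : ℝ) ^ ((i : ℝ) / 2) := ⟨_, rfl⟩
  have hH0 : 0 < H := by rw [hH]; exact r2pos _
  rw [← hH] at hh1 hbH
  have ha0 : a ≠ 0 := by
    intro h0
    rw [h0, Nat.cast_zero, zero_add, one_mul] at haR2
    have h1 : (2 : ℝ) ^ (i : ℝ) < b := hAR.trans_lt haR2
    rw [hii, ← hH] at h1
    have h2 : 1 ≤ H := by linarith
    have h3 : H ≤ H * H := le_mul_of_one_le_left hH0.le h2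
    linarith
  obtain ⟨I, hI⟩ : ∃ I, I = Nat.log 2 a := ⟨_, rfl⟩
  have hI1 : 2 ^ I ≤ a := by rw [hI]; exact Nat.pow_log_le_self 2 ha0
  have hI2 : a + 1 ≤ 2 ^ (I + 1) := by
    rw [hI]; exact Nat.lt_pow_succ_log_self one_lt_two a
  obtain ⟨Q, hQ⟩ : ∃ Q : ℝ, Q = (2 : ℝ) ^ (I : ℝ) := ⟨_, rfl⟩
  have hQ0 : 0 < Q := by rw [hQ]; exact r2pos _
  have hQn : ((2 ^ I : ℕ) : ℝ) = Q := by rw [r2n, hQ]
  have hQa : Q ≤ a := by rw [← hQn]; exact_mod_cast hI1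
  have hQa' : (a : ℝ) + 1 ≤ 2 * Q := by
    rw [← hQn]
    have : a + 1 ≤ 2 * 2 ^ I := by rw [← pow_succ']; exact hI2
    exact_mod_cast this
  have hQ1 : (2 : ℝ) ^ (i : ℝ) < 2 * Q * b :=
    (hAR.trans_lt haR2).trans_le (mul_le_mul_of_nonneg_right hQa' hbR.le)
  -- the scale
  have hIlow : (i : ℝ) - 1 - 2 * i / 10 ^ 6 < I := by
    have h1 : (2 : ℝ) ^ ((i : ℝ) - 1 - 2 * i / 10 ^ 6) < (2 : ℝ) ^ (I : ℝ) := by
      rw [← hQ]
      have h2 : (2 : ℝ) ^ (i : ℝ) = (2 : ℝ) ^ ((i : ℝ) - 1 - 2 * i / 10 ^ 6) *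
          (2 * (2 : ℝ) ^ (2 * (i : ℝ) / 10 ^ 6)) := by
        have h3 : 2 * (2 : ℝ) ^ (2 * (i : ℝ) / 10 ^ 6) = (2 : ℝ) ^ (1 + 2 * (i : ℝ) / 10 ^ 6) := by
          rw [r2, Real.rpow_one]
        rw [h3, ← r2]
        congr 1
        ring
      have h4 : 2 * Q * b ≤ Q * (2 * (2 : ℝ) ^ (2 * (i : ℝ) / 10 ^ 6)) := by
        have := mul_le_mul_of_nonneg_left hbX'.le hQ0.le
        nlinarith
      rw [h2] at hQ1
      exact lt_of_mul_lt_mul_right (hQ1.trans_le h4)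
        (mul_nonneg zero_le_two (r2pos _).le)
    exact (Real.rpow_lt_rpow_left_iff one_lt_two).mp h1
  have hj2 : j ≤ 2 * I := by
    have h1 : (i : ℝ) ≤ 2 * I := by linarith
    have h2 : i ≤ 2 * I := by exact_mod_cast h1
    omega
  have hIi : I ≤ i := by
    by_contra hcon
    have h1 : i + 1 ≤ I := by omega
    have h2 : 2 ^ (i + 1) ≤ 2 ^ I := Nat.pow_le_pow_right (by norm_num) h1
    have h3 : 2 ≤ b := by
      have : (2 : ℝ) ≤ b := by linarith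
      exact_mod_cast this
    have h4 : 2 ^ (i + 1) * 2 ≤ a * b := Nat.mul_le_mul (h2.trans hI1) h3
    have h5 : 0 < 2 ^ (i + 1) := Nat.two_pow_pos _
    omega
  -- the length
  have hlen : (c : ℝ) - a ≤ 1 + h / b := by
    have h1 : (c : ℝ) ≤ (A + h) / b := by rw [le_div_iff₀ hbR]; exact hcR
    have h2 : (A : ℝ) / b ≤ a + 1 := by rw [div_le_iff₀ hbR]; exact haR2.le
    have h3 : ((A : ℝ) + h) / b = A / b + h / b := add_div _ _ _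
    linarith
  have hhb : (h : ℝ) / b ≤ H / b := div_le_div_of_nonneg_right hh1 hbR.le
  have hHb : 1 ≤ H / b := by rw [le_div_iff₀ hbR]; linarith
  have hlen2 : (c : ℝ) - a ≤ 2 * (H / b) := by linarith
  have hQ2 : H * H / (2 * b) ≤ Q := by
    rw [div_le_iff₀ (by linarith)]
    rw [hii, ← hH] at hQ1
    linarith
  have hcond : (c : ℝ) - a ≤ (2 : ℝ) ^ ((I : ℝ) / 2) := by
    have h1 : (2 : ℝ) ^ ((I : ℝ) / 2) = √Q := by
      rw [hQ, Real.sqrt_eq_rpow, ← Real.rpow_mul zero_le_two]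
      congr 1
      ring
    rw [h1]
    refine hlen2.trans (Real.le_sqrt_of_sq_le (le_trans ?_ hQ2))
    rw [mul_pow, div_pow, le_div_iff₀ (by linarith)]
    have : 2 ^ 2 * (H ^ 2 / (b : ℝ) ^ 2) * (2 * b) = 8 * (H ^ 2 / b) := by
      field_simp
      ring
    rw [this]
    have h2 : H ^ 2 / b ≤ H ^ 2 / 16 := div_le_div_of_nonneg_left (by positivity) (by norm_num) hb16
    have h3 : H * H = H ^ 2 := by ring
    have h4 := sq_nonneg H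
    rw [h3]
    linarith
  have hcb : c ≤ 2 ^ (I + 2) := by
    have h1 : (c : ℝ) ≤ 4 * Q := by
      have h2 : (c : ℝ) ≤ a + 1 + h / b := by linarith
      have h3 : (h : ℝ) / b ≤ 2 * Q := by
        refine hhb.trans ?_
        rw [div_le_iff₀ hbR]
        have h4 : H ≤ H * H := le_mul_of_one_le_left hH0.le (by linarith)
        rw [hii, ← hH] at hQ1
        linarith
      linarith
    have h5 : ((2 ^ (I + 2) : ℕ) : ℝ) = 4 * Q := by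
      rw [← hQn]
      push_cast
      ring
    rw [← h5] at h1
    exact_mod_cast h1
  have hvr := hVR I a c hj2 hI1 hac hcb hcond
  refine hvr.trans ?_
  have he0 : 0 ≤ e0 := by unfold e0; norm_num
  have hIR : (I : ℝ) ≤ i := by exact_mod_cast hIi
  apply mul_le_mul (r2mono (mul_le_mul_of_nonneg_left hIR he0)) _ _ (r2pos _).le
  · -- the two terms
    have t1 : ((c : ℝ) - a) / 2 ^ I ≤ (2 * b + 2 * h) / (2 : ℝ) ^ (i : ℝ) := by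
      rw [← Real.rpow_natCast, ← hQ]
      rw [div_le_div_iff₀ hQ0 (r2pos _)]
      have h1 : ((c : ℝ) - a) * (2 : ℝ) ^ (i : ℝ) ≤ (1 + h / b) * (2 * Q * b) :=
        mul_le_mul hlen hQ1.le (r2pos _).le (by positivity)
      refine h1.trans (le_of_eq ?_)
      field_simp
    have t2 : (2 : ℝ) ^ (-(1 / 2 + 1 / 10 ^ 5) * (I : ℝ)) ≤
        2 * b * (2 : ℝ) ^ (-(1 / 2 + 1 / 10 ^ 5) * (i : ℝ)) := by
      have h1 : (2 : ℝ) ^ (i : ℝ) / (2 * b) ≤ Q := by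
        rw [div_le_iff₀ (by linarith)]
        linarith
      have h2 : (2 : ℝ) ^ (-(1 / 2 + 1 / 10 ^ 5) * (I : ℝ)) = Q ^ (-(1 / 2 + 1 / 10 ^ 5 : ℝ)) := by
        rw [hQ, ← Real.rpow_mul zero_le_two]
        congr 1
        ring
      rw [h2]
      have h3 := Real.rpow_le_rpow_of_nonpos (div_pos (r2pos (i : ℝ)) (by linarith : (0 : ℝ) < 2 * b))
        h1 (by norm_num : (-(1 / 2 + 1 / 10 ^ 5 : ℝ)) ≤ 0)
      refine h3.trans ?_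
      rw [Real.div_rpow (r2pos _).le (by linarith), ← Real.rpow_mul zero_le_two,
        Real.rpow_neg (by linarith : (0 : ℝ) ≤ 2 * b), div_inv_eq_mul, mul_comm]
      have h4 : (2 * (b : ℝ)) ^ (1 / 2 + 1 / 10 ^ 5 : ℝ) ≤ 2 * b := by
        have := Real.rpow_le_rpow_of_exponent_le (by linarith : (1 : ℝ) ≤ 2 * b)
          (by norm_num : (1 / 2 + 1 / 10 ^ 5 : ℝ) ≤ 1)
        rwa [Real.rpow_one] at this
      have h5 : (i : ℝ) * (-(1 / 2 + 1 / 10 ^ 5)) = -(1 / 2 + 1 / 10 ^ 5) * (i : ℝ) := by ring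
      rw [h5]
      exact mul_le_mul_of_nonneg_right h4 (r2pos _).le
    have t3 : (b : ℝ) * (2 : ℝ) ^ (-(1 / 2 + 1 / 10 ^ 5) * (i : ℝ)) ≤
        (2 : ℝ) ^ (-(1 / 2 + 8 / 10 ^ 6) * (i : ℝ)) := by
      refine (mul_le_mul_of_nonneg_right hbX'.le (r2pos _).le).trans (le_of_eq ?_)
      rw [← r2]
      congr 1
      ring
    have t4 : (b : ℝ) / (2 : ℝ) ^ (i : ℝ) ≤ (2 : ℝ) ^ (-(1 / 2 + 8 / 10 ^ 6) * (i : ℝ)) := by
      rw [div_le_iff₀ (r2pos _), ← r2]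
      refine hbX'.le.trans (r2mono ?_)
      nlinarith
    have t5 : (2 * (b : ℝ) + 2 * h) / (2 : ℝ) ^ (i : ℝ) =
        2 * (b / (2 : ℝ) ^ (i : ℝ)) + 2 * h / 2 ^ i := by
      rw [← Real.rpow_natCast 2 i]
      ring
    rw [t5] at t1
    have t6 : 2 * (b : ℝ) * (2 : ℝ) ^ (-(1 / 2 + 1 / 10 ^ 5) * (i : ℝ)) =
        2 * (b * (2 : ℝ) ^ (-(1 / 2 + 1 / 10 ^ 5) * (i : ℝ))) := by ring
    rw [t6] at t2
    linarith
  · have h1 : (a : ℝ) ≤ c := by exact_mod_cast hac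
    have h2 : 0 ≤ ((c : ℝ) - a) / 2 ^ I := div_nonneg (by linarith) (by positivity)
    have h3 := r2pos (-(1 / 2 + 1 / 10 ^ 5) * (I : ℝ))
    linarith

/-- the sum over the divisors `b` -/
lemma sum_b (hLPE : S_LPE) {j : ℕ}
    (hM : ∀ N : ℕ, ∑ p ∈ (range N).filter Nat.Prime, E.gh V j p * (p : ℝ) ^ (1 / 8000 : ℝ) ≤
      (2 : ℝ) ^ (-((j : ℝ) / 20000)))
    (hj : 16 * (2 : ℝ) ^ (-((j : ℝ) / 20000)) ≤ 1) (i M : ℕ) :
    ∑ b ∈ (Icc 2 M).filter (fun b : ℕ => (2 : ℝ) ^ ((i : ℝ) / 10 ^ 6) ≤ b),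
      LP (fun p => 8 * ghs E V j i p) b ≤ 3 * (2 : ℝ) ^ (-(i : ℝ) / (8 * 10 ^ 9)) := by
  obtain ⟨F, hF⟩ : ∃ F : ℕ → ℝ, ∀ p, F p = if p.Prime then 8 * (E.gh V j p * (p : ℝ) ^ (1 / 8000 : ℝ))
    else 0 := ⟨_, fun _ => rfl⟩
  have hterm : ∀ p : ℕ, 0 ≤ E.gh V j p * (p : ℝ) ^ (1 / 8000 : ℝ) := fun p =>
    mul_nonneg (gh_nn E V j p) (Real.rpow_nonneg (Nat.cast_nonneg p) _)
  have hF1 : ∀ p, 0 ≤ F p ∧ F p ≤ 1 / 2 := by
    intro p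
    rw [hF]
    split_ifs with hp
    · refine ⟨mul_nonneg (by norm_num) (hterm p), ?_⟩
      have h1 := hM (p + 1)
      have h2 := single_le_sum (fun q _ => hterm q : ∀ q ∈ (range (p + 1)).filter Nat.Prime,
        0 ≤ E.gh V j q * (q : ℝ) ^ (1 / 8000 : ℝ)) (mem_filter.mpr ⟨mem_range.mpr (Nat.lt_succ_self p), hp⟩)
      linarith
    · norm_num
  have h1 := hLPE F hF1 M
  have h2 : ∑ p ∈ (range (M + 1)).filter Nat.Prime, F p ≤ 1 / 2 := by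
    have h3 : ∑ p ∈ (range (M + 1)).filter Nat.Prime, F p =
        8 * ∑ p ∈ (range (M + 1)).filter Nat.Prime, E.gh V j p * (p : ℝ) ^ (1 / 8000 : ℝ) := by
      rw [mul_sum]
      refine sum_congr rfl fun p hp => ?_
      rw [hF, if_pos (mem_filter.mp hp).2]
    rw [h3]
    have := hM (M + 1)
    linarith
  have h4 : ∑ m ∈ Icc 2 M, LP F m ≤ 3 := by
    refine h1.trans ?_
    have h5 : Real.exp (2 * ∑ p ∈ (range (M + 1)).filter Nat.Prime, F p) ≤ Real.exp 1 :=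
      Real.exp_le_exp.mpr (by linarith)
    have h6 := Real.exp_one_lt_d9
    linarith
  have hLPF : ∀ m, 0 ≤ LP F m := LP_nonneg F fun p => (hF1 p).1
  have h7 : ∀ b ∈ (Icc 2 M).filter (fun b : ℕ => (2 : ℝ) ^ ((i : ℝ) / 10 ^ 6) ≤ b),
      LP (fun p => 8 * ghs E V j i p) b ≤ LP F b * (2 : ℝ) ^ (-(i : ℝ) / (8 * 10 ^ 9)) := by
    intro b hb
    rw [mem_filter, mem_Icc] at hb
    obtain ⟨⟨hb2, -⟩, hXb⟩ := hb
    have hb0 : b ≠ 0 := by omega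
    have hbR : (0 : ℝ) < b := by exact_mod_cast Nat.pos_of_ne_zero hb0
    have h8 : LP (fun p => 8 * ghs E V j i p) b * (b : ℝ) ^ (1 / 8000 : ℝ) ≤ LP F b := by
      rw [← LP_pow _ hb0, ← LP_mul_fun]
      refine LP_le _ _ (fun p => mul_nonneg (mul_nonneg (by norm_num) (ghs_nn E V j i p))
        (Real.rpow_nonneg (Nat.cast_nonneg p) _)) hb0 fun p hp _ => ?_
      rw [hF, if_pos hp, mul_assoc]
      apply mul_le_mul_of_nonneg_left _ (by norm_num)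
      exact mul_le_mul_of_nonneg_right (ghs_le E V j i p) (Real.rpow_nonneg (Nat.cast_nonneg p) _)
    have h9 : (2 : ℝ) ^ ((i : ℝ) / (8 * 10 ^ 9)) ≤ (b : ℝ) ^ (1 / 8000 : ℝ) := by
      have := Real.rpow_le_rpow (r2pos _).le hXb (by norm_num : (0 : ℝ) ≤ 1 / 8000)
      rw [← Real.rpow_mul zero_le_two] at this
      refine le_trans (le_of_eq ?_) this
      congr 1
      ring
    have h10 : 0 ≤ LP (fun p => 8 * ghs E V j i p) b :=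
      LP_nonneg _ (fun p => mul_nonneg (by norm_num) (ghs_nn E V j i p)) _
    have h11 : (2 : ℝ) ^ (-(i : ℝ) / (8 * 10 ^ 9)) = ((2 : ℝ) ^ ((i : ℝ) / (8 * 10 ^ 9)))⁻¹ := by
      rw [← Real.rpow_neg zero_le_two]
      congr 1
      ring
    rw [h11, ← div_eq_mul_inv, le_div_iff₀ (r2pos _)]
    exact (mul_le_mul_of_nonneg_left h9 h10).trans h8
  refine (sum_le_sum h7).trans ?_
  rw [← sum_mul]
  apply mul_le_mul_of_nonneg_right _ (r2pos _).le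
  exact (sum_le_sum_of_subset_of_nonneg (filter_subset _ _) fun m _ _ => hLPF m).trans h4

/-- the sum over a cell -/
lemma cell_sum (hLPE : S_LPE) {j i k : ℕ} (hD : DGs E V j) (hVR : EvR j V)
    (hM : ∀ N : ℕ, ∑ p ∈ (range N).filter Nat.Prime, E.gh V j p * (p : ℝ) ^ (1 / 8000 : ℝ) ≤
      (2 : ℝ) ^ (-((j : ℝ) / 20000)))
    (hj : 16 * (2 : ℝ) ^ (-((j : ℝ) / 20000)) ≤ 1)
    (hj16 : (16 : ℝ) ≤ (2 : ℝ) ^ (((j / 10 : ℕ) : ℝ) * (1 / 10 ^ 15)))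
    (hji : j ≤ i) (hi : 10 ^ 7 ≤ i) (hk : k < nc E.δ i) :
    ∑ n ∈ cell E.δ i k, ∑ l ∈ n.divisors, ∑ r ∈ (n / l).divisors.filter
      (fun r : ℕ => (2 : ℝ) ^ ((i : ℝ) / 10 ^ 6) ≤ (r : ℝ)), TS E V j i n l r ≤
    (2 : ℝ) ^ (1 / 10 ^ 15 * ((i : ℝ) + 1)) * (2 : ℝ) ^ (1 / 10 ^ 15 * ((i : ℝ) + 1)) *
      ((3 * (2 : ℝ) ^ (-(i : ℝ) / (8 * 10 ^ 9))) * ((2 : ℝ) ^ (e0 * i) *
        (2 * (hh E.δ i : ℝ) / 2 ^ i + 4 * (2 : ℝ) ^ (-(1 / 2 + 8 / 10 ^ 6) * (i : ℝ))))) := by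
  have hiR : (10 : ℝ) ^ 7 ≤ i := by exact_mod_cast hi
  have hi1 : 1 ≤ i := by omega
  obtain ⟨X, hX⟩ : ∃ X : ℝ, X = (2 : ℝ) ^ ((i : ℝ) / 10 ^ 6) := ⟨_, rfl⟩
  obtain ⟨Y, hY⟩ : ∃ Y : ℝ, Y = (2 : ℝ) ^ (1 / 10 ^ 15 * ((i : ℝ) + 1)) := ⟨_, rfl⟩
  have hY0 : 0 ≤ Y := by rw [hY]; exact (r2pos _).le
  have hX2 : 2 ≤ X := by
    rw [hX]
    calc (2 : ℝ) = (2 : ℝ) ^ (1 : ℝ) := (Real.rpow_one 2).symm
      _ ≤ _ := r2mono (by rw [le_div_iff₀ (by norm_num)]; linarith)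
  obtain ⟨W, hW⟩ : ∃ W : ℝ, W = (2 : ℝ) ^ (e0 * i) *
    (2 * (hh E.δ i : ℝ) / 2 ^ i + 4 * (2 : ℝ) ^ (-(1 / 2 + 8 / 10 ^ 6) * (i : ℝ))) := ⟨_, rfl⟩
  have hloc : ∀ n ∈ cell E.δ i k, n ≠ 0 ∧ n ≤ 2 ^ (i + 1) := fun n hn => by
    obtain ⟨h1, h2, -⟩ := Pool.Agent.W76.MO.cell_loc E.δ E.hδ i k n hk hn
    exact ⟨by omega, h2⟩
  rw [← hX, ← hY, ← hW]
  -- step 1
  have s1 : ∑ n ∈ cell E.δ i k, ∑ l ∈ n.divisors, ∑ r ∈ (n / l).divisors.filter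
      (fun r : ℕ => X ≤ (r : ℝ)), TS E V j i n l r ≤
      ∑ n ∈ (cell E.δ i k).filter (Rg j), Y * Y *
        ∑ b ∈ n.divisors.filter (fun b : ℕ => X ≤ b ∧ (b : ℝ) < X * X),
          LP (fun p => 8 * ghs E V j i p) b * SV V (n / b) := by
    rw [← sum_filter_add_sum_filter_not (cell E.δ i k) (Rg j)]
    have z : ∑ n ∈ (cell E.δ i k).filter (fun n => ¬ Rg j n), ∑ l ∈ n.divisors,
        ∑ r ∈ (n / l).divisors.filter (fun r : ℕ => X ≤ (r : ℝ)), TS E V j i n l r = 0 := by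
      refine sum_eq_zero fun n hn => sum_eq_zero fun l hl => sum_eq_zero fun r hr => ?_
      rw [mem_filter] at hn hr
      by_contra hcon
      exact hn.2 (TS_rg E V hD (hloc n hn.1).1 (Nat.mem_divisors.mp hl).1
        (Nat.mem_divisors.mp hr.1).1 hcon)
    rw [z, add_zero]
    refine sum_le_sum fun n hn => ?_
    rw [mem_filter] at hn
    obtain ⟨n1, n2⟩ := hloc n hn.1
    have h1 := G_le E V hD n1 n2 hi1 hn.2
    rw [← hX, ← hY] at h1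
    refine h1.trans ?_
    apply mul_le_mul_of_nonneg_right
    · apply mul_le_mul_of_nonneg_right _ hY0
      refine (rg_const hn.2 (by norm_num) (by norm_num) hj16).trans ?_
      have h2 : (n : ℝ) ≤ (2 : ℝ) ^ ((i : ℝ) + 1) := by
        have h3 : ((2 ^ (i + 1) : ℕ) : ℝ) = (2 : ℝ) ^ ((i : ℝ) + 1) := by
          rw [r2n]
          push_cast
          rfl
        rw [← h3]
        exact_mod_cast n2
      have h4 := Real.rpow_le_rpow (Nat.cast_nonneg n) h2 (by norm_num : (0 : ℝ) ≤ 1 / 10 ^ 15)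
      rw [← Real.rpow_mul zero_le_two] at h4
      rw [hY]
      refine h4.trans (le_of_eq ?_)
      congr 1
      ring
    · exact sum_nonneg fun b _ => mul_nonneg
        (LP_nonneg _ (fun p => mul_nonneg (by norm_num) (ghs_nn E V j i p)) _) (SV_nn V _)
  refine s1.trans ?_
  rw [← mul_sum]
  apply mul_le_mul_of_nonneg_left _ (mul_nonneg hY0 hY0)
  -- step 2: exchange
  rw [sum_comm' (t' := (Icc 2 (2 ^ (i + 1))).filter (fun b : ℕ => X ≤ b ∧ (b : ℝ) < X * X))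
    (s' := fun b => ((cell E.δ i k).filter (Rg j)).filter (fun n => b ∣ n))]
  · -- the inner sums
    have s2 : ∀ b ∈ (Icc 2 (2 ^ (i + 1))).filter (fun b : ℕ => X ≤ b ∧ (b : ℝ) < X * X),
        ∑ n ∈ ((cell E.δ i k).filter (Rg j)).filter (fun n => b ∣ n),
          LP (fun p => 8 * ghs E V j i p) b * SV V (n / b) ≤
        LP (fun p => 8 * ghs E V j i p) b * W := by
      intro b hb
      rw [mem_filter, mem_Icc] at hb
      obtain ⟨⟨hb2, -⟩, hXb, hbX⟩ := hb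
      rw [← mul_sum]
      apply mul_le_mul_of_nonneg_left _
        (LP_nonneg _ (fun p => mul_nonneg (by norm_num) (ghs_nn E V j i p)) _)
      have h1 := inner E V hVR hji hi hk (by rw [← hX]; exact hXb) (by rw [← hX]; exact hbX)
      rw [← hW] at h1
      refine le_trans ?_ h1
      have hb0 : 0 < b := by omega
      rw [← sum_image (f := SV V) (g := fun n => n / b)
        (s := ((cell E.δ i k).filter (Rg j)).filter (fun n => b ∣ n))]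
      · refine sum_le_sum_of_subset_of_nonneg ?_ fun m _ _ => SV_nn V m
        intro m hm
        rw [mem_image] at hm
        obtain ⟨n, hn, rfl⟩ := hm
        rw [mem_filter, mem_filter, mem_cell] at hn
        obtain ⟨⟨⟨n1, n2⟩, n3, n4⟩, m, rfl⟩ := hn
        rw [Nat.mul_div_cancel_left m hb0, mem_filter, mem_Ioc, Nat.div_lt_iff_lt_mul hb0,
          Nat.le_div_iff_mul_le hb0, mul_comm m b]
        refine ⟨⟨n1, n2⟩, right_ne_zero_of_mul n3, fun p hp hd => n4 p hp (hd.mul_left b)⟩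
      · intro n hn n' hn' he
        have d1 : b ∣ n := (mem_filter.mp hn).2
        have d2 : b ∣ n' := (mem_filter.mp hn').2
        have he' : n / b = n' / b := he
        rw [← Nat.div_mul_cancel d1, ← Nat.div_mul_cancel d2, he']
    refine (sum_le_sum s2).trans ?_
    rw [← sum_mul]
    have hW0 : 0 ≤ W := by
      rw [hW]
      have h1 := r2pos (e0 * i)
      have h2 := r2pos (-(1 / 2 + 8 / 10 ^ 6) * (i : ℝ))
      positivity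
    apply mul_le_mul_of_nonneg_right _ hW0
    refine le_trans ?_ (sum_b E V hLPE hM hj i (2 ^ (i + 1)))
    rw [← hX]
    refine sum_le_sum_of_subset_of_nonneg ?_ fun m _ _ =>
      LP_nonneg _ (fun p => mul_nonneg (by norm_num) (ghs_nn E V j i p)) _
    intro b hb
    rw [mem_filter] at hb ⊢
    exact ⟨hb.1, hb.2.1⟩
  · intro n b
    rw [mem_filter, mem_filter, mem_filter, mem_filter, mem_filter, mem_Icc, Nat.mem_divisors]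
    constructor
    · rintro ⟨⟨hn, hR⟩, ⟨hb, hn0⟩, hXb, hbX⟩
      refine ⟨⟨⟨hn, hR⟩, hb⟩, ⟨?_, (Nat.le_of_dvd (Nat.pos_of_ne_zero hn0) hb).trans (hloc n hn).2⟩,
        hXb, hbX⟩
      exact_mod_cast hX2.trans hXb
    · rintro ⟨⟨⟨hn, hR⟩, hb⟩, -, hXb, hbX⟩
      exact ⟨⟨hn, hR⟩, ⟨hb, hR.1⟩, hXb, hbX⟩

lemma growth (ε : ℝ) (hε : 0 < ε) : ∃ J : ℕ, ∀ n : ℕ, J ≤ n →
    (n : ℝ) ^ 40 / (2 : ℝ) ^ (1 / 10 ^ 10 * (n : ℝ)) ≤ ε := by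
  obtain ⟨θ, hθ⟩ : ∃ θ : ℝ, θ = 1 / 10 ^ 10 := ⟨_, rfl⟩
  have hθ0 : 0 < θ := by rw [hθ]; positivity
  rw [← hθ]
  clear hθ
  have g1 : (1 : ℝ) < (2 : ℝ) ^ θ := Real.one_lt_rpow one_lt_two hθ0
  have g2 := tendsto_pow_const_div_const_pow_of_one_lt 40 g1
  have g3 : ∀ᶠ n : ℕ in atTop, (n : ℝ) ^ 40 / ((2 : ℝ) ^ θ) ^ n < ε :=
    (tendsto_order.mp g2).2 _ hε
  obtain ⟨J, hJ⟩ := eventually_atTop.mp g3
  refine ⟨J, fun n hn => ?_⟩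
  have h1 := (hJ n hn).le
  rwa [← Real.rpow_natCast ((2 : ℝ) ^ θ), ← Real.rpow_mul zero_le_two] at h1

lemma final_num {i : ℕ} (hi0 : 0 < i) {ε : ℝ}
    (h1 : (i : ℝ) ^ 40 / (2 : ℝ) ^ (1 / 10 ^ 10 * (i : ℝ)) ≤ ε / 36) :
    (2 : ℝ) ^ (1 / 10 ^ 15 * ((i : ℝ) + 1)) * (2 : ℝ) ^ (1 / 10 ^ 15 * ((i : ℝ) + 1)) *
      ((3 * (2 : ℝ) ^ (-(i : ℝ) / (8 * 10 ^ 9))) * ((2 : ℝ) ^ (e0 * i) *
        (2 * (hh E.δ i : ℝ) / 2 ^ i + 4 * (2 : ℝ) ^ (-(1 / 2 + 8 / 10 ^ 6) * (i : ℝ))))) ≤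
      ε * ww E.δ i := by
  have hiR : (0 : ℝ) < i := by exact_mod_cast hi0
  have hδ := E.hδ
  have hδ' := E.hδ'
  obtain ⟨U, hU⟩ : ∃ U : ℝ, U = (2 : ℝ) ^ (-(1 / 2 + E.δ / 2) * (i : ℝ)) := ⟨_, rfl⟩
  have hU0 : 0 < U := by rw [hU]; exact r2pos _
  have u1 : (hh E.δ i : ℝ) / 2 ^ i ≤ U := by
    have h1 := hh_le hδ (E_half E) i
    rw [← Real.rpow_natCast 2 i, div_le_iff₀ (r2pos _), hU, ← r2]
    refine h1.trans (r2mono ?_)
    have : 0 ≤ E.δ * i := mul_nonneg hδ.le hiR.le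
    linarith
  have u2 : (2 : ℝ) ^ (-(1 / 2 + 8 / 10 ^ 6) * (i : ℝ)) ≤ U := by
    rw [hU]
    apply r2mono
    apply mul_le_mul_of_nonneg_right _ hiR.le
    have : E.δ / 2 ≤ 8 / 10 ^ 6 := by
      have : (1 : ℝ) / 10 ^ 24 ≤ 8 / 10 ^ 6 := by norm_num
      linarith
    linarith
  have u3 : 2 * (hh E.δ i : ℝ) / 2 ^ i + 4 * (2 : ℝ) ^ (-(1 / 2 + 8 / 10 ^ 6) * (i : ℝ)) ≤ 6 * U := by
    have : 2 * (hh E.δ i : ℝ) / 2 ^ i = 2 * ((hh E.δ i : ℝ) / 2 ^ i) := by ring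
    rw [this]
    linarith
  have u4 : (2 : ℝ) ^ (1 / 10 ^ 15 * ((i : ℝ) + 1)) * (2 : ℝ) ^ (1 / 10 ^ 15 * ((i : ℝ) + 1)) *
      ((2 : ℝ) ^ (-(i : ℝ) / (8 * 10 ^ 9)) * (2 : ℝ) ^ (e0 * i)) ≤
      2 * (2 : ℝ) ^ (-(1 / 10 ^ 10 * (i : ℝ))) := by
    rw [← r2, ← r2, ← r2]
    calc _ ≤ (2 : ℝ) ^ (1 + -(1 / 10 ^ 10 * (i : ℝ))) := by
          apply r2mono
          unfold e0
          linarith
      _ = _ := by rw [r2, Real.rpow_one]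
  have u5 : (2 : ℝ) ^ (-(1 / 10 ^ 10 * (i : ℝ))) * (i : ℝ) ^ 40 ≤ ε / 36 := by
    rw [Real.rpow_neg zero_le_two, mul_comm, ← div_eq_mul_inv]
    exact h1
  have hww : ww E.δ i = U / (i : ℝ) ^ 40 := by
    unfold ww
    rw [hU]
  rw [hww]
  have hi40 : (0 : ℝ) < (i : ℝ) ^ 40 := by positivity
  calc (2 : ℝ) ^ (1 / 10 ^ 15 * ((i : ℝ) + 1)) * (2 : ℝ) ^ (1 / 10 ^ 15 * ((i : ℝ) + 1)) *
      ((3 * (2 : ℝ) ^ (-(i : ℝ) / (8 * 10 ^ 9))) * ((2 : ℝ) ^ (e0 * i) *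
        (2 * (hh E.δ i : ℝ) / 2 ^ i + 4 * (2 : ℝ) ^ (-(1 / 2 + 8 / 10 ^ 6) * (i : ℝ))))) =
      3 * ((2 : ℝ) ^ (1 / 10 ^ 15 * ((i : ℝ) + 1)) * (2 : ℝ) ^ (1 / 10 ^ 15 * ((i : ℝ) + 1)) *
      ((2 : ℝ) ^ (-(i : ℝ) / (8 * 10 ^ 9)) * (2 : ℝ) ^ (e0 * i))) *
        (2 * (hh E.δ i : ℝ) / 2 ^ i + 4 * (2 : ℝ) ^ (-(1 / 2 + 8 / 10 ^ 6) * (i : ℝ))) := by ring
    _ ≤ 3 * (2 * (2 : ℝ) ^ (-(1 / 10 ^ 10 * (i : ℝ)))) * (6 * U) := by
        apply mul_le_mul _ u3 _ _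
        · exact mul_le_mul_of_nonneg_left u4 (by norm_num)
        · have h2 := r2pos (-(1 / 2 + 8 / 10 ^ 6) * (i : ℝ))
          positivity
        · have := r2pos (-(1 / 10 ^ 10 * (i : ℝ)))
          positivity
    _ = 36 * ((2 : ℝ) ^ (-(1 / 10 ^ 10 * (i : ℝ))) * (i : ℝ) ^ 40) * (U / (i : ℝ) ^ 40) := by
        field_simp
        ring
    _ ≤ 36 * (ε / 36) * (U / (i : ℝ) ^ 40) := by
        apply mul_le_mul_of_nonneg_right _ (div_nonneg hU0.le hi40.le)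
        exact mul_le_mul_of_nonneg_left u5 (by norm_num)
    _ = ε * (U / (i : ℝ) ^ 40) := by ring

lemma num1 {j : ℕ} (j4 : 10 ^ 18 ≤ j) : 16 * (2 : ℝ) ^ (-((j : ℝ) / 20000)) ≤ 1 ∧
    (16 : ℝ) ≤ (2 : ℝ) ^ (((j / 10 : ℕ) : ℝ) * (1 / 10 ^ 15)) := by
  have e16 : (16 : ℝ) = (2 : ℝ) ^ (4 : ℝ) := by
    rw [show (4 : ℝ) = ((4 : ℕ) : ℝ) by norm_num, Real.rpow_natCast]
    norm_num
  have h3 : (4 : ℝ) ≤ (j : ℝ) / 20000 := by
    have hjR : (10 : ℝ) ^ 18 ≤ j := by exact_mod_cast j4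
    rw [le_div_iff₀ (by norm_num)]
    linarith
  have h4 : (4 : ℝ) ≤ ((j / 10 : ℕ) : ℝ) * (1 / 10 ^ 15) := by
    have h1 : 10 ^ 17 ≤ j / 10 := by omega
    have h2 : (10 : ℝ) ^ 17 ≤ ((j / 10 : ℕ) : ℝ) := by exact_mod_cast h1
    linarith
  clear j4
  refine ⟨?_, ?_⟩
  · rw [e16, ← r2]
    calc (2 : ℝ) ^ (4 + -((j : ℝ) / 20000)) ≤ (2 : ℝ) ^ (0 : ℝ) := r2mono (by linarith)
      _ = 1 := Real.rpow_zero 2
  · rw [e16]
    exact r2mono h4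

/-- **KZ-SPB** -/
theorem t_SPB : S_LPA → S_LPE → S_DG → S_DM → S_SPB := by
  intro _ hLPE hDG hDM E ε hε
  obtain ⟨η₁, J₁, hη₁, h₁⟩ := hDG E
  obtain ⟨η₂, J₂, hη₂, h₂⟩ := hDM E
  obtain ⟨J₃, hJ₃⟩ := growth (ε / 36) (by positivity)
  refine ⟨min η₁ η₂, max (max J₁ J₂) (max J₃ (10 ^ 18)), lt_min hη₁ hη₂, ?_⟩
  intro η j V hη hηle hJ hEv i k hji hk
  have j1 : J₁ ≤ j := ((le_max_left _ _).trans (le_max_left _ _)).trans hJ
  have j2 : J₂ ≤ j := ((le_max_right _ _).trans (le_max_left _ _)).trans hJ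
  have j3 : J₃ ≤ j := ((le_max_left _ _).trans (le_max_right _ _)).trans hJ
  have j4 : 10 ^ 18 ≤ j := ((le_max_right _ _).trans (le_max_right _ _)).trans hJ
  have hdg := h₁ η j V hη (hηle.trans (min_le_left _ _)) j1 hEv
  have hdm := h₂ η j V hη (hηle.trans (min_le_right _ _)) j2 hEv
  have hD : DGs E V j := by
    refine ⟨fun p hp => (hdg p hp).2.2.2.1, fun p hp h0 => ((hdg p hp).2.2.2.2.1 h0).1,
      fun p hp h0 => (hdg p hp).2.2.2.2.2 h0, hEv.sub⟩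
  obtain ⟨hj, hj16⟩ := num1 j4
  have hi : 10 ^ 7 ≤ i := by omega
  have hs := cell_sum E V hLPE hD hEv.vr hdm hj hj16 hji hi hk
  refine le_trans hs ?_
  exact final_num E (by omega) (hJ₃ i (j3.trans hji))

end Pool.Agent.Q153.KZ
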