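import Pool.Agent.Q102.KZ.LB
import Pool.Agent.Q265.KZ.Basic
import Pool.Agent.Q222.KZ.Base

/-!
# Project KZ (helper18), job KZ-SPB, first part: pointwise estimates
-/

set_option autoImplicit false

namespace Pool.Agent.Q153.KZ

open Finset Filter Topology
open scoped Classical
open Pool.Agent.W76.MO (hh nc cell lp Rough)
open Q236.CM (LP LP_one LP_mul LP_prime LP_nonneg LP_le LP_div LP_pow LP_mul_fun LP_one_le)
open Pool.Agent.Q18.KZ
open Pool.Agent.Q102.KZ (aV_nn gu_nn gh_nn ww_nn)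
open Pool.Agent.Q265.KZ (card_div_le)

lemma LP_ne {h : ℕ → ℝ} {n : ℕ} (hn : n ≠ 0) (h0 : LP h n ≠ 0) {p : ℕ} (hp : p.Prime)
    (hd : p ∣ n) : h p ≠ 0 := by
  rw [LP_div h hn hp hd] at h0
  exact left_ne_zero_of_mul h0

lemma LP_const_one_le {c : ℝ} (hc : 1 ≤ c) {n : ℕ} (hn : n ≠ 0) : 1 ≤ LP (fun _ => c) n :=
  LP_one_le _ (fun _ => hc) hn

lemma LP_const_mul (c : ℝ) (h : ℕ → ℝ) (n : ℕ) :
    LP (fun p => c * h p) n = LP (fun _ => c) n * LP h n := LP_mul_fun (fun _ => c) h n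

/-- number of divisors -/
lemma card_div_LP {n : ℕ} (hn : n ≠ 0) : (n.divisors.card : ℝ) ≤ LP (fun _ => 2) n := by
  have h1 := card_div_le hn
  have h2 : ∑ p ∈ n.primeFactors, n.factorization p = n.primeFactorsList.length := by
    have := @ArithmeticFunction.cardFactors_eq_sum_factorization n
    rw [ArithmeticFunction.cardFactors_apply] at this
    rw [this, Finsupp.sum]
    rfl
  have h3 : LP (fun _ => (2 : ℝ)) n = 2 ^ n.primeFactorsList.length := by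
    unfold LP
    rw [List.map_const', List.prod_replicate]
  rw [h3, ← h2]
  exact_mod_cast h1

/-- constants to the number of prime factors of a number with large prime factors -/
lemma rg_const {j n : ℕ} (hR : Rg j n) {c θ : ℝ} (hc : 0 ≤ c) (hθ : 0 ≤ θ)
    (h : c ≤ (2 : ℝ) ^ (((j / 10 : ℕ) : ℝ) * θ)) : LP (fun _ => c) n ≤ (n : ℝ) ^ θ := by
  rw [← LP_pow θ hR.1]
  refine LP_le _ _ (fun _ => hc) hR.1 fun p hp hd => h.trans ?_
  have h1 : (2 : ℝ) ^ ((j / 10 : ℕ) : ℝ) ≤ p := by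
    rw [Real.rpow_natCast]
    exact_mod_cast hR.2 p hp hd
  rw [Real.rpow_mul two_pos.le]
  exact Real.rpow_le_rpow (Real.rpow_pos_of_pos two_pos _).le h1 hθ

/-- a divisor of controlled size -/
lemma exists_b {r : ℕ} (hr : r ≠ 0) {X : ℝ} (hX : 1 < X) (hXr : X ≤ r)
    (hp : ∀ p : ℕ, p.Prime → p ∣ r → (p : ℝ) < X) : ∃ b, b ∣ r ∧ X ≤ b ∧ (b : ℝ) < X * X := by
  have hne : ∃ b, b ∣ r ∧ X ≤ (b : ℝ) := ⟨r, dvd_rfl, hXr⟩
  obtain ⟨h1, h2⟩ := Nat.find_spec hne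
  have h3 := fun m (hm : m < Nat.find hne) => Nat.find_min hne hm
  obtain ⟨b, hb⟩ : ∃ b, b = Nat.find hne := ⟨_, rfl⟩
  rw [← hb] at h1 h2 h3
  have hb1 : b ≠ 1 := by
    rintro rfl
    rw [Nat.cast_one] at h2
    linarith
  obtain ⟨p, hpp, hpb⟩ := Nat.exists_prime_and_dvd hb1
  obtain ⟨c, rfl⟩ := hpb
  have hc0 : 0 < c := by
    rcases Nat.eq_zero_or_pos c with h | h
    · subst h
      rw [mul_zero] at h1
      exact absurd (Nat.eq_zero_of_zero_dvd h1) hr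
    · exact h
  have h4 : c < p * c := by
    have := hpp.two_le
    nlinarith
  have h5 : (c : ℝ) < X := by
    by_contra hcon
    exact h3 c h4 ⟨(Dvd.intro_left p rfl).trans h1, not_lt.mp hcon⟩
  have h6 : (p : ℝ) < X := hp p hpp ((Dvd.intro c rfl).trans h1)
  refine ⟨p * c, h1, h2, ?_⟩
  push_cast
  have : (0 : ℝ) < c := by exact_mod_cast hc0
  have : (0 : ℝ) < p := by exact_mod_cast hpp.pos
  nlinarith

variable (E : KEnv) (V : ℕ → Bool)

lemma ghs_nn (j i p : ℕ) : 0 ≤ ghs E V j i p := by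
  unfold ghs
  split_ifs
  · exact gh_nn E V j p
  · exact le_rfl

lemma ghs_le (j i p : ℕ) : ghs E V j i p ≤ E.gh V j p := by
  unfold ghs
  split_ifs
  · exact le_rfl
  · exact gh_nn E V j p

lemma gus_nn (j i p : ℕ) : 0 ≤ gus E j i p := by
  unfold gus
  split_ifs
  · exact gu_nn E j p
  · exact le_rfl

lemma gus_le (j i p : ℕ) : gus E j i p ≤ E.gu j p := by
  unfold gus
  split_ifs
  · exact le_rfl
  · exact gu_nn E j p

/-- the part of the random set -/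
lemma aV_part (l : ℕ) (hl : l ≠ 0) : LP (fun p => 4 * aV V p) l ≤
    if Vn V l then LP (fun _ => 8) l * (l : ℝ) ^ (-(1 / 2 : ℝ) - dd) else 0 := by
  split_ifs with h
  · rw [← LP_pow _ hl, ← LP_mul_fun]
    refine LP_le _ _ (fun p => mul_nonneg (by norm_num) (aV_nn V p)) hl fun p hp hd => ?_
    have h1 : V p = true := h p (Nat.mem_primeFactors.mpr ⟨hp, hd, hl⟩)
    unfold aV
    rw [if_pos h1]
    have : 0 ≤ (p : ℝ) ^ (-(1 / 2 : ℝ) - dd) := Real.rpow_nonneg (Nat.cast_nonneg p) _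
    linarith
  · unfold Vn at h
    push Not at h
    obtain ⟨p, hp, hV⟩ := h
    have hpp := Nat.prime_of_mem_primeFactors hp
    have hpd := Nat.dvd_of_mem_primeFactors hp
    rw [LP_div _ hl hpp hpd]
    unfold aV
    rw [if_neg hV, mul_zero, zero_mul]

/-- the parts of the perturbations -/
lemma g_part {j : ℕ} {h : ℕ → ℝ} (h0 : ∀ p, 0 ≤ h p)
    (hle : ∀ p : ℕ, p.Prime → h p ≤ E.gu j p + E.gh V j p)
    (hDG : ∀ p : ℕ, p.Prime → E.gu j p + E.gh V j p ≤ (p : ℝ) ^ (-1 + 1 / 10 ^ 15 : ℝ))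
    (r : ℕ) (hr : r ≠ 0) : LP (fun p => 8 * h p) r ≤
      LP (fun _ => 8) r * (r : ℝ) ^ (-1 + 1 / 10 ^ 15 : ℝ) := by
  rw [← LP_pow _ hr, ← LP_mul_fun]
  refine LP_le _ _ (fun p => mul_nonneg (by norm_num) (h0 p)) hr fun p hp _ => ?_
  exact mul_le_mul_of_nonneg_left ((hle p hp).trans (hDG p hp)) (by norm_num)

/-- what is needed from DG -/
structure DGs (j : ℕ) : Prop where
  le : ∀ p : ℕ, p.Prime → E.gu j p + E.gh V j p ≤ (p : ℝ) ^ (-1 + 1 / 10 ^ 15 : ℝ)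
  u : ∀ p : ℕ, p.Prime → E.gu j p ≠ 0 → 2 ^ j < p
  h : ∀ p : ℕ, p.Prime → (p : ℝ) < (2 : ℝ) ^ ((j : ℝ) / 4) → E.gh V j p = 0
  v : ∀ p : ℕ, V p = true → p.Prime ∧ 2 ^ (j / 10) ≤ p

/-- the term of the sum -/
noncomputable def TS (j i n l r : ℕ) : ℝ :=
  LP (fun p => 4 * aV V p) l * LP (fun p => 8 * ghs E V j i p) r *
    LP (fun p => 8 * gus E j i p) (n / l / r)

lemma TS_nn (j i n l r : ℕ) : 0 ≤ TS E V j i n l r :=
  mul_nonneg (mul_nonneg (LP_nonneg _ (fun p => mul_nonneg (by norm_num) (aV_nn V p)) _)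
    (LP_nonneg _ (fun p => mul_nonneg (by norm_num) (ghs_nn E V j i p)) _))
    (LP_nonneg _ (fun p => mul_nonneg (by norm_num) (gus_nn E j i p)) _)

/-- a nonzero term forces large prime factors -/
lemma TS_rg {j i n l r : ℕ} (hD : DGs E V j) (hn : n ≠ 0) (hl : l ∣ n) (hr : r ∣ n / l)
    (h : TS E V j i n l r ≠ 0) : Rg j n := by
  obtain ⟨m, rfl⟩ := hl
  have hl0 : l ≠ 0 := left_ne_zero_of_mul hn
  have hm0 : m ≠ 0 := right_ne_zero_of_mul hn
  rw [Nat.mul_div_cancel_left m (Nat.pos_of_ne_zero hl0)] at hr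
  obtain ⟨s, rfl⟩ := hr
  have hr0 : r ≠ 0 := left_ne_zero_of_mul hm0
  have hs0 : s ≠ 0 := right_ne_zero_of_mul hm0
  unfold TS at h
  rw [Nat.mul_div_cancel_left _ (Nat.pos_of_ne_zero hl0),
    Nat.mul_div_cancel_left _ (Nat.pos_of_ne_zero hr0)] at h
  have h1 := left_ne_zero_of_mul (left_ne_zero_of_mul h)
  have h2 := right_ne_zero_of_mul (left_ne_zero_of_mul h)
  have h3 := right_ne_zero_of_mul h
  refine ⟨hn, fun p hp hd => ?_⟩
  rcases (Nat.Prime.dvd_mul hp).mp hd with hd | hd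
  · have h4 := LP_ne hl0 h1 hp hd
    have h5 : V p = true := by
      by_contra hV
      apply h4
      show 4 * aV V p = 0
      unfold aV
      rw [if_neg hV, mul_zero]
    exact (hD.v p h5).2
  · rcases (Nat.Prime.dvd_mul hp).mp hd with hd | hd
    · have h4 := LP_ne hr0 h2 hp hd
      have h5 : E.gh V j p ≠ 0 := by
        intro h6
        apply h4
        show 8 * ghs E V j i p = 0
        have h7 := ghs_le E V j i p
        have h8 := ghs_nn E V j i p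
        rw [h6] at h7
        have : ghs E V j i p = 0 := le_antisymm h7 h8
        rw [this, mul_zero]
      have h6 : (2 : ℝ) ^ ((j : ℝ) / 4) ≤ p := by
        by_contra hcon
        exact h5 (hD.h p hp (not_le.mp hcon))
      have h7 : (2 : ℝ) ^ (j / 10 : ℕ) ≤ (2 : ℝ) ^ ((j : ℝ) / 4) := by
        rw [← Real.rpow_natCast]
        apply Real.rpow_le_rpow_of_exponent_le one_le_two
        have h8 : ((j / 10 : ℕ) : ℝ) ≤ (j : ℝ) / 10 := by
          have := @Nat.cast_div_le ℝ _ _ _ j 10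
          exact_mod_cast this
        have : (0 : ℝ) ≤ j := Nat.cast_nonneg j
        linarith
      exact_mod_cast h7.trans h6
    · have h4 := LP_ne hs0 h3 hp hd
      have h5 : E.gu j p ≠ 0 := by
        intro h6
        apply h4
        show 8 * gus E j i p = 0
        have h7 := gus_le E j i p
        have h8 := gus_nn E j i p
        rw [h6] at h7
        have : gus E j i p = 0 := le_antisymm h7 h8
        rw [this, mul_zero]
      have h6 := hD.u p hp h5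
      have h7 : 2 ^ (j / 10) ≤ 2 ^ j := Nat.pow_le_pow_right (by norm_num) (Nat.div_le_self j 10)
      omega

/-- the weight of `(b, l)` -/
noncomputable def WB (j i n b l : ℕ) : ℝ :=
  LP (fun p => 8 * ghs E V j i p) b *
    if Vn V l then (l : ℝ) ^ (-(1 / 2 : ℝ) - dd) * (((n / b / l : ℕ) : ℝ))⁻¹ else 0

lemma WB_nn (j i n b l : ℕ) : 0 ≤ WB E V j i n b l := by
  unfold WB
  apply mul_nonneg (LP_nonneg _ (fun p => mul_nonneg (by norm_num) (ghs_nn E V j i p)) _)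
  split_ifs
  · exact mul_nonneg (Real.rpow_nonneg (Nat.cast_nonneg l) _) (inv_nonneg.mpr (Nat.cast_nonneg _))
  · exact le_rfl

/-- the pointwise estimate -/
lemma TS_le {j i n l r : ℕ} (hD : DGs E V j) (hn : n ≠ 0) (hni : n ≤ 2 ^ (i + 1)) (hl : l ∣ n)
    (hr : r ∣ n / l) (hXr : (2 : ℝ) ^ ((i : ℝ) / 10 ^ 6) ≤ r) (hi : 1 ≤ i) :
    TS E V j i n l r ≤ LP (fun _ => 8) n * (2 : ℝ) ^ (1 / 10 ^ 15 * ((i : ℝ) + 1)) *
      ∑ b ∈ (n / l).divisors.filter (fun b : ℕ => (2 : ℝ) ^ ((i : ℝ) / 10 ^ 6) ≤ b ∧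
        (b : ℝ) < (2 : ℝ) ^ ((i : ℝ) / 10 ^ 6) * (2 : ℝ) ^ ((i : ℝ) / 10 ^ 6)),
        WB E V j i n b l := by
  obtain ⟨X, hX⟩ : ∃ X : ℝ, X = (2 : ℝ) ^ ((i : ℝ) / 10 ^ 6) := ⟨_, rfl⟩
  rw [← hX] at hXr ⊢
  have hX1 : 1 < X := by
    rw [hX]
    apply Real.one_lt_rpow one_lt_two
    have : (1 : ℝ) ≤ i := by exact_mod_cast hi
    positivity
  have hK : 0 ≤ LP (fun _ => 8) n * (2 : ℝ) ^ (1 / 10 ^ 15 * ((i : ℝ) + 1)) :=
    mul_nonneg (LP_nonneg _ (fun _ => by norm_num) _) (Real.rpow_pos_of_pos two_pos _).le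
  have hsum : 0 ≤ ∑ b ∈ (n / l).divisors.filter (fun b : ℕ => X ≤ b ∧ (b : ℝ) < X * X),
      WB E V j i n b l := sum_nonneg fun b _ => WB_nn E V j i n b l
  by_cases hT : TS E V j i n l r = 0
  · rw [hT]
    exact mul_nonneg hK hsum
  obtain ⟨m, rfl⟩ := hl
  have hl0 : l ≠ 0 := left_ne_zero_of_mul hn
  have hm0 : m ≠ 0 := right_ne_zero_of_mul hn
  rw [Nat.mul_div_cancel_left m (Nat.pos_of_ne_zero hl0)] at hr hsum ⊢
  obtain ⟨s, rfl⟩ := hr
  have hr0 : r ≠ 0 := left_ne_zero_of_mul hm0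
  have hs0 : s ≠ 0 := right_ne_zero_of_mul hm0
  unfold TS at hT ⊢
  rw [Nat.mul_div_cancel_left _ (Nat.pos_of_ne_zero hl0),
    Nat.mul_div_cancel_left _ (Nat.pos_of_ne_zero hr0)] at hT ⊢
  have h2 := right_ne_zero_of_mul (left_ne_zero_of_mul hT)
  have hsm : ∀ p : ℕ, p.Prime → p ∣ r → (p : ℝ) < X := by
    intro p hp hd
    by_contra hcon
    apply LP_ne hr0 h2 hp hd
    show 8 * ghs E V j i p = 0
    unfold ghs
    rw [← hX, if_neg hcon, mul_zero]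
  obtain ⟨b, hbr, hXb, hbX⟩ := exists_b hr0 hX1 hXr hsm
  obtain ⟨r', rfl⟩ := hbr
  have hb0 : b ≠ 0 := left_ne_zero_of_mul hr0
  have hr'0 : r' ≠ 0 := right_ne_zero_of_mul hr0
  have hmem : b ∈ (b * r' * s).divisors.filter (fun b : ℕ => X ≤ b ∧ (b : ℝ) < X * X) := by
    rw [mem_filter, Nat.mem_divisors]
    exact ⟨⟨⟨r' * s, by ring⟩, hm0⟩, hXb, hbX⟩
  have hsingle := single_le_sum (fun b' _ => WB_nn E V j i (l * (b * r' * s)) b' l : ∀ b' ∈
    (b * r' * s).divisors.filter (fun b : ℕ => X ≤ b ∧ (b : ℝ) < X * X),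
      0 ≤ WB E V j i (l * (b * r' * s)) b' l) hmem
  refine le_trans ?_ (mul_le_mul_of_nonneg_left hsingle hK)
  unfold WB
  have hdiv : l * (b * r' * s) / b / l = r' * s := by
    have e1 : l * (b * r' * s) = b * (l * (r' * s)) := by ring
    rw [e1, Nat.mul_div_cancel_left _ (Nat.pos_of_ne_zero hb0),
      Nat.mul_div_cancel_left _ (Nat.pos_of_ne_zero hl0)]
  rw [hdiv, LP_mul _ hb0 hr'0]
  obtain ⟨B, hB⟩ : ∃ B : ℝ, B = LP (fun p => 8 * ghs E V j i p) b := ⟨_, rfl⟩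
  have hB0 : 0 ≤ B := by
    rw [hB]
    exact LP_nonneg _ (fun p => mul_nonneg (by norm_num) (ghs_nn E V j i p)) _
  rw [← hB]
  have a1 := aV_part V l hl0
  have a2 := g_part E V (j := j) (fun p => ghs_nn E V j i p)
    (fun p _ => (ghs_le E V j i p).trans (le_add_of_nonneg_left (gu_nn E j p))) hD.le r' hr'0
  have a3 := g_part E V (j := j) (fun p => gus_nn E j i p)
    (fun p _ => (gus_le E j i p).trans (le_add_of_nonneg_right (gh_nn E V j p))) hD.le s hs0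
  have n1 : 0 ≤ LP (fun p => 4 * aV V p) l :=
    LP_nonneg _ (fun p => mul_nonneg (by norm_num) (aV_nn V p)) _
  have n2 : 0 ≤ LP (fun p => 8 * ghs E V j i p) r' :=
    LP_nonneg _ (fun p => mul_nonneg (by norm_num) (ghs_nn E V j i p)) _
  have n3 : 0 ≤ LP (fun p => 8 * gus E j i p) s :=
    LP_nonneg _ (fun p => mul_nonneg (by norm_num) (gus_nn E j i p)) _
  split_ifs at a1 ⊢ with hV
  · have c0 : ∀ x : ℕ, 0 ≤ LP (fun _ => (8 : ℝ)) x := fun x =>
      LP_nonneg _ (fun _ => by norm_num) _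
    have rs0 : (0 : ℝ) < ((r' * s : ℕ) : ℝ) := by
      exact_mod_cast Nat.mul_pos (Nat.pos_of_ne_zero hr'0) (Nat.pos_of_ne_zero hs0)
    have e2 : (r' : ℝ) ^ (-1 + 1 / 10 ^ 15 : ℝ) * (s : ℝ) ^ (-1 + 1 / 10 ^ 15 : ℝ) ≤
        (((r' * s : ℕ) : ℝ))⁻¹ * (2 : ℝ) ^ (1 / 10 ^ 15 * ((i : ℝ) + 1)) := by
      rw [← Real.mul_rpow (Nat.cast_nonneg r') (Nat.cast_nonneg s), ← Nat.cast_mul,
        Real.rpow_add rs0, Real.rpow_neg_one]
      apply mul_le_mul_of_nonneg_left _ (inv_nonneg.mpr rs0.le)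
      have h5 : ((r' * s : ℕ) : ℝ) ≤ (2 : ℝ) ^ ((i : ℝ) + 1) := by
        have h6 : r' * s ≤ 2 ^ (i + 1) := by
          refine le_trans ?_ hni
          have e3 : l * (b * r' * s) = (l * b) * (r' * s) := by ring
          rw [e3]
          exact Nat.le_mul_of_pos_left _ (Nat.mul_pos (Nat.pos_of_ne_zero hl0)
            (Nat.pos_of_ne_zero hb0))
        have h7 : ((2 ^ (i + 1) : ℕ) : ℝ) = (2 : ℝ) ^ ((i : ℝ) + 1) := by
          rw [Nat.cast_pow, Nat.cast_ofNat, ← Real.rpow_natCast]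
          push_cast
          rfl
        rw [← h7]
        exact_mod_cast h6
      have h8 := Real.rpow_le_rpow rs0.le h5 (by norm_num : (0 : ℝ) ≤ 1 / 10 ^ 15)
      rw [← Real.rpow_mul two_pos.le] at h8
      refine h8.trans (le_of_eq ?_)
      congr 1
      ring
    have e4 : LP (fun _ => (8 : ℝ)) l * LP (fun _ => (8 : ℝ)) r' * LP (fun _ => (8 : ℝ)) s ≤
        LP (fun _ => (8 : ℝ)) (l * (b * r' * s)) := by
      rw [LP_mul _ hl0 hm0, LP_mul _ hr0 hs0, LP_mul _ hb0 hr'0]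
      have h5 := LP_const_one_le (c := 8) (by norm_num) hb0
      have h6 := c0 l
      have h7 := c0 r'
      have h8 := c0 s
      have h9 : 0 ≤ LP (fun _ => (8 : ℝ)) l * (LP (fun _ => (8 : ℝ)) r' * LP (fun _ => (8 : ℝ)) s) :=
        mul_nonneg h6 (mul_nonneg h7 h8)
      nlinarith
    have l0 : 0 ≤ (l : ℝ) ^ (-(1 / 2 : ℝ) - dd) := Real.rpow_nonneg (Nat.cast_nonneg l) _
    have p1 : 0 ≤ (r' : ℝ) ^ (-1 + 1 / 10 ^ 15 : ℝ) := Real.rpow_nonneg (Nat.cast_nonneg r') _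
    have p2 : 0 ≤ (s : ℝ) ^ (-1 + 1 / 10 ^ 15 : ℝ) := Real.rpow_nonneg (Nat.cast_nonneg s) _
    calc LP (fun p => 4 * aV V p) l * (B * LP (fun p => 8 * ghs E V j i p) r') *
          LP (fun p => 8 * gus E j i p) s =
        B * (LP (fun p => 4 * aV V p) l * (LP (fun p => 8 * ghs E V j i p) r' *
          LP (fun p => 8 * gus E j i p) s)) := by ring
      _ ≤ B * ((LP (fun _ => 8) l * (l : ℝ) ^ (-(1 / 2 : ℝ) - dd)) *
          ((LP (fun _ => 8) r' * (r' : ℝ) ^ (-1 + 1 / 10 ^ 15 : ℝ)) *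
            (LP (fun _ => 8) s * (s : ℝ) ^ (-1 + 1 / 10 ^ 15 : ℝ)))) := by
          apply mul_le_mul_of_nonneg_left _ hB0
          apply mul_le_mul a1 _ (mul_nonneg n2 n3) (mul_nonneg (c0 l) l0)
          exact mul_le_mul a2 a3 n3 (mul_nonneg (c0 r') p1)
      _ = (LP (fun _ => 8) l * LP (fun _ => 8) r' * LP (fun _ => 8) s) *
          (B * (l : ℝ) ^ (-(1 / 2 : ℝ) - dd) *
            ((r' : ℝ) ^ (-1 + 1 / 10 ^ 15 : ℝ) * (s : ℝ) ^ (-1 + 1 / 10 ^ 15 : ℝ))) := by ring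
      _ ≤ LP (fun _ => 8) (l * (b * r' * s)) * (B * (l : ℝ) ^ (-(1 / 2 : ℝ) - dd) *
            ((((r' * s : ℕ) : ℝ))⁻¹ * (2 : ℝ) ^ (1 / 10 ^ 15 * ((i : ℝ) + 1)))) := by
          apply mul_le_mul e4 _ (mul_nonneg (mul_nonneg hB0 l0) (mul_nonneg p1 p2)) (c0 _)
          exact mul_le_mul_of_nonneg_left e2 (mul_nonneg hB0 l0)
      _ = _ := by ring
  · have h1 : LP (fun p => 4 * aV V p) l = 0 := le_antisymm a1 n1
    rw [h1, zero_mul, zero_mul, mul_zero, mul_zero]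

/-- the double sum for one `n` -/
lemma G_le {j i n : ℕ} (hD : DGs E V j) (hn : n ≠ 0) (hni : n ≤ 2 ^ (i + 1)) (hi : 1 ≤ i)
    (hR : Rg j n) :
    ∑ l ∈ n.divisors, ∑ r ∈ (n / l).divisors.filter
      (fun r : ℕ => (2 : ℝ) ^ ((i : ℝ) / 10 ^ 6) ≤ (r : ℝ)), TS E V j i n l r ≤
    LP (fun _ => 16) n * (2 : ℝ) ^ (1 / 10 ^ 15 * ((i : ℝ) + 1)) *
      ∑ b ∈ n.divisors.filter (fun b : ℕ => (2 : ℝ) ^ ((i : ℝ) / 10 ^ 6) ≤ b ∧
        (b : ℝ) < (2 : ℝ) ^ ((i : ℝ) / 10 ^ 6) * (2 : ℝ) ^ ((i : ℝ) / 10 ^ 6)),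
        LP (fun p => 8 * ghs E V j i p) b * SV V (n / b) := by
  obtain ⟨X, hX⟩ : ∃ X : ℝ, X = (2 : ℝ) ^ ((i : ℝ) / 10 ^ 6) := ⟨_, rfl⟩
  obtain ⟨Y, hY⟩ : ∃ Y : ℝ, Y = (2 : ℝ) ^ (1 / 10 ^ 15 * ((i : ℝ) + 1)) := ⟨_, rfl⟩
  have hY0 : 0 ≤ Y := by rw [hY]; exact (Real.rpow_pos_of_pos two_pos _).le
  rw [← hX, ← hY]
  have h1 : ∀ l ∈ n.divisors, ∑ r ∈ (n / l).divisors.filter (fun r : ℕ => X ≤ (r : ℝ)),
      TS E V j i n l r ≤ LP (fun _ => 16) n * Y *
        ∑ b ∈ (n / l).divisors.filter (fun b : ℕ => X ≤ b ∧ (b : ℝ) < X * X),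
          WB E V j i n b l := by
    intro l hl
    have hln := (Nat.mem_divisors.mp hl).1
    obtain ⟨S, hS⟩ : ∃ S : ℝ, S = ∑ b ∈ (n / l).divisors.filter
      (fun b : ℕ => X ≤ b ∧ (b : ℝ) < X * X), WB E V j i n b l := ⟨_, rfl⟩
    have hS0 : 0 ≤ S := by rw [hS]; exact sum_nonneg fun b _ => WB_nn E V j i n b l
    have h2 : ∀ r ∈ (n / l).divisors.filter (fun r : ℕ => X ≤ (r : ℝ)),
        TS E V j i n l r ≤ LP (fun _ => 8) n * Y * S := by
      intro r hr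
      rw [mem_filter, Nat.mem_divisors] at hr
      have := TS_le E V hD hn hni hln hr.1.1 (by rw [← hX]; exact hr.2) hi
      rw [← hX, ← hY, ← hS] at this
      exact this
    refine (sum_le_sum h2).trans ?_
    rw [sum_const, nsmul_eq_mul, ← hS]
    have h3 : (((n / l).divisors.filter (fun r : ℕ => X ≤ (r : ℝ))).card : ℝ) ≤
        LP (fun _ => 2) n := by
      refine le_trans ?_ (card_div_LP hn)
      exact_mod_cast (card_filter_le _ _).trans
        (card_le_card (Nat.divisors_subset_of_dvd hn (Nat.div_dvd_of_dvd hln)))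
    have h4 : LP (fun _ => (16 : ℝ)) n = LP (fun _ => 2) n * LP (fun _ => 8) n := by
      rw [← LP_mul_fun]
      norm_num
    rw [h4]
    have h5 : 0 ≤ LP (fun _ => (8 : ℝ)) n * Y * S :=
      mul_nonneg (mul_nonneg (LP_nonneg _ (fun _ => by norm_num) _) hY0) hS0
    calc (((n / l).divisors.filter (fun r : ℕ => X ≤ (r : ℝ))).card : ℝ) *
        (LP (fun _ => 8) n * Y * S) ≤ LP (fun _ => 2) n * (LP (fun _ => 8) n * Y * S) :=
          mul_le_mul_of_nonneg_right h3 h5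
      _ = _ := by ring
  refine (sum_le_sum h1).trans (le_of_eq ?_)
  rw [← mul_sum]
  congr 1
  rw [sum_comm' (t' := n.divisors.filter (fun b : ℕ => X ≤ b ∧ (b : ℝ) < X * X))
    (s' := fun b => (n / b).divisors)]
  · refine sum_congr rfl fun b _ => ?_
    unfold WB SV
    rw [← mul_sum, ← sum_filter]
  · intro l b
    rw [mem_filter, mem_filter, Nat.mem_divisors, Nat.mem_divisors, Nat.mem_divisors,
      Nat.mem_divisors]
    constructor
    · rintro ⟨⟨hl, _⟩, ⟨hb, hb0⟩, hX'⟩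
      obtain ⟨m, rfl⟩ := hl
      have hl0 : l ≠ 0 := left_ne_zero_of_mul hn
      rw [Nat.mul_div_cancel_left m (Nat.pos_of_ne_zero hl0)] at hb hb0
      obtain ⟨s, rfl⟩ := hb
      have hb0 : b ≠ 0 := left_ne_zero_of_mul hb0
      refine ⟨⟨?_, ?_⟩, ⟨⟨l * s, by ring⟩, hn⟩, hX'⟩
      · have e1 : l * (b * s) = b * (l * s) := by ring
        rw [e1, Nat.mul_div_cancel_left _ (Nat.pos_of_ne_zero hb0)]
        exact Dvd.intro s rfl
      · have e1 : l * (b * s) = b * (l * s) := by ring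
        rw [e1, Nat.mul_div_cancel_left _ (Nat.pos_of_ne_zero hb0)]
        intro h
        apply hn
        rw [e1, h, mul_zero]
    · rintro ⟨⟨hl, hl0⟩, ⟨hb, _⟩, hX'⟩
      obtain ⟨m, rfl⟩ := hb
      have hb0 : b ≠ 0 := left_ne_zero_of_mul hn
      rw [Nat.mul_div_cancel_left m (Nat.pos_of_ne_zero hb0)] at hl hl0
      obtain ⟨s, rfl⟩ := hl
      have hl0' : l ≠ 0 := left_ne_zero_of_mul hl0
      have e1 : b * (l * s) = l * (b * s) := by ring
      refine ⟨⟨⟨b * s, e1⟩, hn⟩, ⟨?_, ?_⟩, hX'⟩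
      · rw [e1, Nat.mul_div_cancel_left _ (Nat.pos_of_ne_zero hl0')]
        exact Dvd.intro s rfl
      · rw [e1, Nat.mul_div_cancel_left _ (Nat.pos_of_ne_zero hl0')]
        intro h
        apply hn
        rw [e1, h, mul_zero]

end Pool.Agent.Q153.KZ
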