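import Pool.Agent.Q18.KZ.S2
import Pool.Agent.W76.MO.Asm2

/-!
# Project KZ (helper18), job KZ-XO2: the normalisation of the monopoles (second moment)
-/

set_option autoImplicit false

namespace Pool.Agent.Q153.KZ

open Finset Filter Topology MeasureTheory
open scoped Classical
open Pool.Agent.W76.MO (hh nc cell lp Rough hh_pos cell_loc)
open Pool.Agent.Q18.KZ

lemma rho_mem (j p : ℕ) : 0 ≤ rho j p ∧ rho j p ≤ 1 := by
  unfold rho
  split_ifs with h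
  · have h1 : (1 : ℝ) ≤ p := by exact_mod_cast h.1.one_lt.le
    refine ⟨by positivity, ?_⟩
    apply Real.rpow_le_one_of_one_le_of_nonpos h1
    unfold d1
    norm_num
  · exact ⟨le_rfl, zero_le_one⟩

lemma prod_rho (j m : ℕ) (hm : Squarefree m)
    (h : ∀ p : ℕ, p.Prime → p ∣ m → 2 ^ (j / 10) ≤ p) :
    ∏ p ∈ m.primeFactors, rho j p = ((m : ℝ) ^ (1 / 2 - d1))⁻¹ := by
  have h1 : ∀ p ∈ m.primeFactors, rho j p = (p : ℝ) ^ (-(1 / 2 - d1)) := fun p hp => by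
    have h2 := Nat.prime_of_mem_primeFactors hp
    unfold rho
    rw [if_pos ⟨h2, h p h2 (Nat.dvd_of_mem_primeFactors hp)⟩]
    congr 1
    ring
  rw [prod_congr rfl h1, Real.finsetProd_rpow _ _ (fun p _ => Nat.cast_nonneg p),
    ← Real.rpow_neg (Nat.cast_nonneg m)]
  congr 1
  rw [← Nat.cast_prod, Nat.prod_primeFactors_of_squarefree hm]

lemma cov (j m m' : ℕ) (hm : Squarefree m) (hm' : Squarefree m')
    (h : ∀ p : ℕ, p.Prime → p ∣ m → 2 ^ (j / 10) ≤ p)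
    (h' : ∀ p : ℕ, p.Prime → p ∣ m' → 2 ^ (j / 10) ≤ p) :
    (m : ℝ) ^ (1 / 2 - d1) * (m' : ℝ) ^ (1 / 2 - d1) *
      (∏ p ∈ m.primeFactors ∪ m'.primeFactors, rho j p -
        (∏ p ∈ m.primeFactors, rho j p) * ∏ p ∈ m'.primeFactors, rho j p) =
      ((m.gcd m' : ℕ) : ℝ) ^ (1 / 2 - d1) - 1 := by
  have h0 : m ≠ 0 := hm.ne_zero
  have h0' : m' ≠ 0 := hm'.ne_zero
  have hg : Squarefree (m.gcd m') := hm.squarefree_of_dvd (Nat.gcd_dvd_left m m')
  have h1 := prod_rho j m hm h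
  have h2 := prod_rho j m' hm' h'
  have h3 := prod_rho j (m.gcd m') hg (fun p hp hd => h p hp (hd.trans (Nat.gcd_dvd_left m m')))
  have h4 := prod_union_inter (s₁ := m.primeFactors) (s₂ := m'.primeFactors) (f := rho j)
  rw [← Nat.primeFactors_gcd h0 h0', h3, h1, h2] at h4
  have p1 : (0 : ℝ) < (m : ℝ) ^ (1 / 2 - d1) :=
    Real.rpow_pos_of_pos (by exact_mod_cast Nat.pos_of_ne_zero h0) _
  have p2 : (0 : ℝ) < (m' : ℝ) ^ (1 / 2 - d1) :=
    Real.rpow_pos_of_pos (by exact_mod_cast Nat.pos_of_ne_zero h0') _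
  have p3 : (0 : ℝ) < ((m.gcd m' : ℕ) : ℝ) ^ (1 / 2 - d1) :=
    Real.rpow_pos_of_pos (by exact_mod_cast Nat.pos_of_ne_zero hg.ne_zero) _
  rw [h1, h2]
  obtain ⟨x, hx⟩ : ∃ x : ℝ, x = (m : ℝ) ^ (1 / 2 - d1) := ⟨_, rfl⟩
  obtain ⟨y, hy⟩ : ∃ y : ℝ, y = (m' : ℝ) ^ (1 / 2 - d1) := ⟨_, rfl⟩
  obtain ⟨z, hz⟩ : ∃ z : ℝ, z = ((m.gcd m' : ℕ) : ℝ) ^ (1 / 2 - d1) := ⟨_, rfl⟩
  rw [← hx] at p1 h4 ⊢
  rw [← hy] at p2 h4 ⊢
  rw [← hz] at p3 h4 ⊢
  have h5 : ∏ p ∈ m.primeFactors ∪ m'.primeFactors, rho j p = x⁻¹ * y⁻¹ * z := by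
    rw [← h4, mul_assoc, inv_mul_cancel₀ p3.ne', mul_one]
  rw [h5]
  field_simp

/-- multiples of `t` in `(a, b]` -/
lemma count (a b t : ℕ) (hab : a ≤ b) (ht : 0 < t) :
    (((Ioc a b).filter (fun n => t ∣ n)).card : ℝ) ≤ ((b : ℝ) - a) / t + 1 := by
  have h1 : ((Ioc 0 b).filter (fun n => t ∣ n)) =
      ((Ioc 0 a).filter (fun n => t ∣ n)) ∪ ((Ioc a b).filter (fun n => t ∣ n)) := by
    rw [← filter_union]
    congr 1
    ext x
    simp only [mem_union, mem_Ioc]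
    omega
  have h2 : Disjoint ((Ioc 0 a).filter (fun n => t ∣ n)) ((Ioc a b).filter (fun n => t ∣ n)) := by
    rw [disjoint_left]
    intro x hx hx'
    rw [mem_filter, mem_Ioc] at hx hx'
    omega
  have h3 := card_union_of_disjoint h2
  rw [← h1, Nat.Ioc_filter_dvd_card_eq_div, Nat.Ioc_filter_dvd_card_eq_div] at h3
  have h4 : ((b / t : ℕ) : ℝ) ≤ (b : ℝ) / t := Nat.cast_div_le
  have h5 : (a : ℝ) / t ≤ ((a / t : ℕ) : ℝ) + 1 := by
    have h6 := Nat.lt_succ_floor ((a : ℝ) / t)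
    rw [Nat.floor_div_eq_div] at h6
    push_cast at h6
    exact h6.le
  have h7 : ((b / t : ℕ) : ℝ) = ((a / t : ℕ) : ℝ) +
      (((Ioc a b).filter (fun n => t ∣ n)).card : ℝ) := by exact_mod_cast h3
  rw [sub_div]
  linarith

/-- the cofactors of the hosts of the second kind -/
lemma host_facts (FF : S_FF) (E : KEnv) (i : ℕ) (hi : E.i₁ ≤ i) (k : ℕ) (hk : k ∈ E.B2 i)
    (n : ℕ) (hn : n ∈ H2D E.δ i k) :
    n / lp n ∣ n ∧ Squarefree (n / lp n) ∧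
      (∀ p : ℕ, p.Prime → p ∣ n / lp n → (2 : ℝ) ^ (0.24 * (i : ℝ)) ≤ p) ∧
      (n / lp n).primeFactors.card ≤ 3 ∧
      ((n / lp n : ℕ) : ℝ) ≤ (2 : ℝ) ^ (0.75 * ((i : ℝ) + 1)) := by
  have hn' := hn
  unfold H2D at hn'
  rw [mem_filter] at hn'
  obtain ⟨h1, h2, h3, h4⟩ := hn'
  have hk' : k < nc E.δ i := E.sub i k (mem_union_right _ hk)
  obtain ⟨l1, l2, -⟩ := cell_loc E.δ E.hδ i k n hk' h1
  have hn1 : 1 < n := by
    have : 1 ≤ 2 ^ i := Nat.one_le_two_pow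
    omega
  have hne : n.primeFactors.Nonempty := Nat.nonempty_primeFactors.mpr hn1
  obtain ⟨q, hq, hq'⟩ := exists_mem_eq_sup n.primeFactors hne id
  have hlp : lp n = q := hq'
  have hqp := Nat.prime_of_mem_primeFactors hq
  have hqd := Nat.dvd_of_mem_primeFactors hq
  have hmul : n / lp n * lp n = n := by
    rw [hlp]
    exact Nat.div_mul_cancel hqd
  have hmem : ((n / lp n, lp n) : ℕ × ℕ) ∈ E.Fam2 i := by
    unfold KEnv.Fam2
    rw [mem_filter, mem_product]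
    refine ⟨⟨?_, ?_⟩, ?_, ?_, k, hk, ?_⟩
    · rw [mem_range]
      exact lt_of_le_of_lt ((Nat.div_le_self n (lp n)).trans l2) (Nat.lt_succ_self _)
    · rw [mem_range]
      refine lt_of_le_of_lt (le_trans ?_ l2) (Nat.lt_succ_self _)
      rw [hlp]
      exact Nat.le_of_dvd (by omega) hqd
    · show (lp n).Prime
      rw [hlp]
      exact hqp
    · show lp (n / lp n * lp n) = lp n
      rw [hmul]
    · show n / lp n * lp n ∈ H2D E.δ i k
      rw [hmul]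
      exact hn
  obtain ⟨f1, f2, f3, f4, f5, f6, f7, -⟩ := (FF E i hi).2 _ hmem
  refine ⟨?_, f1, f5, f6, f7⟩
  exact Dvd.intro _ hmul

lemma card_div (m : ℕ) (hm : Squarefree m) (h : m.primeFactors.card ≤ 3) :
    m.divisors.card ≤ 8 := by
  rw [Nat.card_divisors hm.ne_zero]
  calc ∏ x ∈ m.primeFactors, (m.factorization x + 1)
      ≤ ∏ _x ∈ m.primeFactors, 2 := prod_le_prod' fun p _ => by
        have := hm.natFactorization_le_one p
        omega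
    _ = 2 ^ m.primeFactors.card := prod_const _
    _ ≤ 2 ^ 3 := Nat.pow_le_pow_right (by norm_num) h
    _ = 8 := by norm_num

/-- the covariance sum of one host -/
lemma row (FF : S_FF) (E : KEnv) (i : ℕ) (hi : E.i₁ ≤ i) (k : ℕ) (hk : k ∈ E.B2 i)
    (n : ℕ) (hn : n ∈ H2D E.δ i k) :
    ∑ n' ∈ H2D E.δ i k, ((((n / lp n).gcd (n' / lp n') : ℕ) : ℝ) ^ (1 / 2 - d1) - 1) ≤
      8 * ((2 : ℝ) ^ (0.375 * ((i : ℝ) + 1)) + hh E.δ i * (2 : ℝ) ^ (-(0.12 * (i : ℝ)))) := by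
  obtain ⟨-, a2, a3, a4, a5⟩ := host_facts FF E i hi k hk n hn
  obtain ⟨m, hm⟩ : ∃ m, m = n / lp n := ⟨_, rfl⟩
  rw [← hm] at a2 a3 a4 a5 ⊢
  have hd : (0 : ℝ) ≤ 1 / 2 - d1 := by unfold d1; norm_num
  have hd' : (1 / 2 : ℝ) - d1 ≤ 1 / 2 := by unfold d1; norm_num
  have hm0 : m ≠ 0 := a2.ne_zero
  have h1 : ∀ n' ∈ H2D E.δ i k, (((m.gcd (n' / lp n') : ℕ) : ℝ) ^ (1 / 2 - d1) - 1) ≤
      ∑ t ∈ m.divisors.erase 1, if t ∣ n' then (t : ℝ) ^ (1 / 2 : ℝ) else 0 := by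
    intro n' hn'
    obtain ⟨b1, -⟩ := host_facts FF E i hi k hk n' hn'
    have hnn : ∀ t ∈ m.divisors.erase 1, (0 : ℝ) ≤ if t ∣ n' then (t : ℝ) ^ (1 / 2 : ℝ) else 0 := by
      intro t _
      split_ifs
      · positivity
      · exact le_rfl
    by_cases hg : m.gcd (n' / lp n') = 1
    · rw [hg, Nat.cast_one, Real.one_rpow, sub_self]
      exact sum_nonneg hnn
    · have hgm : m.gcd (n' / lp n') ∈ m.divisors.erase 1 := by
        rw [mem_erase, Nat.mem_divisors]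
        exact ⟨hg, Nat.gcd_dvd_left _ _, hm0⟩
      have hgn : m.gcd (n' / lp n') ∣ n' := (Nat.gcd_dvd_right _ _).trans b1
      have hg1 : (1 : ℝ) ≤ ((m.gcd (n' / lp n') : ℕ) : ℝ) := by
        exact_mod_cast Nat.gcd_pos_of_pos_left _ (Nat.pos_of_ne_zero hm0)
      refine le_trans ?_ (single_le_sum hnn hgm)
      rw [if_pos hgn]
      have := Real.rpow_le_rpow_of_exponent_le hg1 hd'
      linarith
  refine (sum_le_sum h1).trans ?_
  rw [sum_comm]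
  have h2 : ∀ t ∈ m.divisors.erase 1, (∑ n' ∈ H2D E.δ i k, if t ∣ n' then (t : ℝ) ^ (1 / 2 : ℝ) else 0) ≤
      (2 : ℝ) ^ (0.375 * ((i : ℝ) + 1)) + hh E.δ i * (2 : ℝ) ^ (-(0.12 * (i : ℝ))) := by
    intro t ht
    rw [mem_erase, Nat.mem_divisors] at ht
    obtain ⟨ht1, htm, -⟩ := ht
    have ht0 : 0 < t := Nat.pos_of_dvd_of_pos htm (Nat.pos_of_ne_zero hm0)
    have htR : (0 : ℝ) < t := by exact_mod_cast ht0
    obtain ⟨p, hp, hpt⟩ := Nat.exists_prime_and_dvd ht1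
    have c1 : (2 : ℝ) ^ (0.24 * (i : ℝ)) ≤ t :=
      (a3 p hp (hpt.trans htm)).trans (by exact_mod_cast Nat.le_of_dvd ht0 hpt)
    have c2 : (t : ℝ) ≤ (2 : ℝ) ^ (0.75 * ((i : ℝ) + 1)) :=
      le_trans (by exact_mod_cast Nat.le_of_dvd (Nat.pos_of_ne_zero hm0) htm) a5
    rw [← sum_filter, sum_const, nsmul_eq_mul]
    have c3 : ((((H2D E.δ i k).filter (fun n' => t ∣ n')).card : ℕ) : ℝ) ≤ hh E.δ i / t + 1 := by
      have c4 : ((H2D E.δ i k).filter (fun n' => t ∣ n')) ⊆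
          ((cell E.δ i k).filter (fun n' => t ∣ n')) := by
        unfold H2D
        exact filter_subset_filter _ (filter_subset _ _)
      have c5 := count (2 ^ i + k * hh E.δ i) (2 ^ i + (k + 1) * hh E.δ i) t (by
        have : k * hh E.δ i ≤ (k + 1) * hh E.δ i := Nat.mul_le_mul_right _ (Nat.le_succ k)
        omega) ht0
      have c6 : (((2 ^ i + (k + 1) * hh E.δ i : ℕ) : ℝ) - ((2 ^ i + k * hh E.δ i : ℕ) : ℝ)) =
          hh E.δ i := by
        push_cast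
        ring
      rw [c6] at c5
      refine le_trans ?_ c5
      exact_mod_cast card_le_card c4
    have c7 : (t : ℝ) ^ (1 / 2 : ℝ) ≤ (2 : ℝ) ^ (0.375 * ((i : ℝ) + 1)) := by
      have := Real.rpow_le_rpow htR.le c2 (by norm_num : (0 : ℝ) ≤ 1 / 2)
      rw [← Real.rpow_mul (by norm_num)] at this
      refine this.trans (le_of_eq ?_)
      congr 1
      ring
    have c8 : (t : ℝ) ^ (1 / 2 : ℝ) / t ≤ (2 : ℝ) ^ (-(0.12 * (i : ℝ))) := by
      have e1 : (t : ℝ) ^ (1 / 2 : ℝ) / t = (t : ℝ) ^ (-(1 / 2 : ℝ)) := by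
        rw [← Real.rpow_sub_one htR.ne']
        norm_num
      rw [e1]
      have := Real.rpow_le_rpow_of_nonpos (by positivity) c1 (by norm_num : (-(1 / 2 : ℝ)) ≤ 0)
      rw [← Real.rpow_mul (by norm_num)] at this
      refine this.trans (le_of_eq ?_)
      congr 1
      ring
    calc ((((H2D E.δ i k).filter (fun n' => t ∣ n')).card : ℕ) : ℝ) * (t : ℝ) ^ (1 / 2 : ℝ)
        ≤ (hh E.δ i / t + 1) * (t : ℝ) ^ (1 / 2 : ℝ) :=
          mul_le_mul_of_nonneg_right c3 (by positivity)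
      _ = (t : ℝ) ^ (1 / 2 : ℝ) + hh E.δ i * ((t : ℝ) ^ (1 / 2 : ℝ) / t) := by ring
      _ ≤ _ := add_le_add c7 (mul_le_mul_of_nonneg_left c8 (Nat.cast_nonneg _))
  refine (sum_le_sum h2).trans ?_
  rw [sum_const, nsmul_eq_mul]
  refine mul_le_mul_of_nonneg_right ?_ (by positivity)
  have h3 : (m.divisors.erase 1).card ≤ 8 := (card_erase_le).trans (card_div m a2 a4)
  exact_mod_cast h3

/-- one cell -/
lemma one_cell (SM : S_SM) (FF : S_FF) (E : KEnv) (j i : ℕ) (hi : E.i₁ ≤ i) (hji : j ≤ i)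
    (P : Measure (ℕ → Bool)) (hP : IsRand (rho j) P) (k : ℕ) (hk : k ∈ E.B2 i) :
    P {V | E.Om2 V i k < E.cH / 2 * hh E.δ i / i} ≤ ENNReal.ofReal
      (32 * ((2 : ℝ) ^ (0.375 * ((i : ℝ) + 1)) + hh E.δ i * (2 : ℝ) ^ (-(0.12 * (i : ℝ)))) /
        (E.cH * hh E.δ i / i)) := by
  obtain ⟨A, hA⟩ : ∃ A : Finset ℕ, A = H2D E.δ i k := ⟨_, rfl⟩
  have hi0 : 0 < i := by
    have := E.hi₁
    omega
  have hiR : (0 : ℝ) < i := by exact_mod_cast hi0
  have hhR : (0 : ℝ) < hh E.δ i := by exact_mod_cast hh_pos E.δ i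
  have hcH := E.hcH
  have hAc : E.cH * hh E.δ i / i ≤ (A.card : ℝ) := by
    rw [hA]
    exact E.host2 i hi k hk
  have hA0 : (0 : ℝ) < A.card := lt_of_lt_of_le (by positivity) hAc
  have hroughN : ∀ n ∈ A, ∀ p : ℕ, p.Prime → p ∣ n / lp n → 2 ^ (j / 10) ≤ p := by
    intro n hn p hp hd
    rw [hA] at hn
    have h1 := (host_facts FF E i hi k hk n hn).2.2.1 p hp hd
    have h2 : (2 : ℝ) ^ (j / 10 : ℕ) ≤ (2 : ℝ) ^ (0.24 * (i : ℝ)) := by
      rw [← Real.rpow_natCast]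
      apply Real.rpow_le_rpow_of_exponent_le (by norm_num)
      have h3 : ((j / 10 : ℕ) : ℝ) ≤ (j : ℝ) / 10 := by
        have := @Nat.cast_div_le ℝ _ _ _ j 10
        exact_mod_cast this
      have h4 : (j : ℝ) ≤ i := by exact_mod_cast hji
      linarith
    have h5 := h2.trans h1
    exact_mod_cast h5
  have hsq : ∀ n ∈ A, Squarefree (n / lp n) := fun n hn => by
    rw [hA] at hn
    exact (host_facts FF E i hi k hk n hn).2.1
  obtain ⟨c, hc⟩ : ∃ c : ℕ → ℝ, ∀ n, c n = ((n / lp n : ℕ) : ℝ) ^ (1 / 2 - d1) := ⟨_, fun _ => rfl⟩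
  obtain ⟨S, hS⟩ : ∃ S : ℕ → Finset ℕ, ∀ n, S n = (n / lp n).primeFactors := ⟨_, fun _ => rfl⟩
  have hmean : ∑ a ∈ A, c a * ∏ p ∈ S a, rho j p = A.card := by
    have h1 : ∀ a ∈ A, c a * ∏ p ∈ S a, rho j p = 1 := fun a ha => by
      rw [hc, hS, prod_rho j _ (hsq a ha) (hroughN a ha)]
      apply mul_inv_cancel₀
      apply (Real.rpow_pos_of_pos _ _).ne'
      exact_mod_cast Nat.pos_of_ne_zero (hsq a ha).ne_zero
    rw [sum_congr rfl h1, sum_const, nsmul_eq_mul, mul_one]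
  have h1 := SM (rho j) P (rho_mem j) hP ℕ A c S (fun a _ => by rw [hc]; positivity)
    (by rw [hmean]; exact hA0)
  rw [hmean] at h1
  refine (measure_mono ?_).trans (h1.trans ?_)
  · intro V hV
    rw [Set.mem_ofPred_eq] at hV ⊢
    have e1 : ZZ A c S V = E.Om2 V i k := by
      unfold ZZ KEnv.Om2
      rw [← hA, sum_filter]
      refine sum_congr rfl fun n _ => ?_
      rw [hS, hc]
      exact if_congr Iff.rfl rfl rfl
    rw [e1]
    refine hV.trans_le ?_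
    have : E.cH / 2 * hh E.δ i / i = (E.cH * hh E.δ i / i) / 2 := by ring
    rw [this]
    linarith
  · apply ENNReal.ofReal_le_ofReal
    have h2 : ∑ a ∈ A, ∑ b ∈ A, c a * c b *
        (∏ p ∈ S a ∪ S b, rho j p - (∏ p ∈ S a, rho j p) * ∏ p ∈ S b, rho j p) ≤
        A.card * (8 * ((2 : ℝ) ^ (0.375 * ((i : ℝ) + 1)) +
          hh E.δ i * (2 : ℝ) ^ (-(0.12 * (i : ℝ))))) := by
      have h3 : ∀ a ∈ A, ∑ b ∈ A, c a * c b *
          (∏ p ∈ S a ∪ S b, rho j p - (∏ p ∈ S a, rho j p) * ∏ p ∈ S b, rho j p) ≤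
          8 * ((2 : ℝ) ^ (0.375 * ((i : ℝ) + 1)) +
            hh E.δ i * (2 : ℝ) ^ (-(0.12 * (i : ℝ)))) := by
        intro a ha
        refine le_trans (le_of_eq ?_) (row FF E i hi k hk a (by rw [← hA]; exact ha))
        rw [← hA]
        refine sum_congr rfl fun b hb => ?_
        rw [hc, hc, hS, hS]
        exact cov j _ _ (hsq a ha) (hsq b hb) (hroughN a ha) (hroughN b hb)
      refine (sum_le_sum h3).trans (le_of_eq ?_)
      rw [sum_const, nsmul_eq_mul]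
    obtain ⟨W, hW⟩ : ∃ W : ℝ, W = (2 : ℝ) ^ (0.375 * ((i : ℝ) + 1)) +
      hh E.δ i * (2 : ℝ) ^ (-(0.12 * (i : ℝ))) := ⟨_, rfl⟩
    rw [← hW] at h2 ⊢
    have hW0 : 0 ≤ W := by rw [hW]; positivity
    calc 4 * (∑ a ∈ A, ∑ b ∈ A, c a * c b *
        (∏ p ∈ S a ∪ S b, rho j p - (∏ p ∈ S a, rho j p) * ∏ p ∈ S b, rho j p)) /
          (A.card : ℝ) ^ 2 ≤ 4 * (A.card * (8 * W)) / (A.card : ℝ) ^ 2 := by
          apply div_le_div_of_nonneg_right _ (by positivity)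
          linarith
      _ = 32 * W / A.card := by
          field_simp
          ring
      _ ≤ 32 * W / (E.cH * hh E.δ i / i) :=
          div_le_div_of_nonneg_left (by positivity) (by positivity) hAc

/-- the bound for one cell, simplified -/
lemma one_cell' (E : KEnv) (i : ℕ) (hi : E.i₁ ≤ i) :
    32 * ((2 : ℝ) ^ (0.375 * ((i : ℝ) + 1)) + hh E.δ i * (2 : ℝ) ^ (-(0.12 * (i : ℝ)))) /
        (E.cH * hh E.δ i / i) ≤ (160 * i / E.cH) * (2 : ℝ) ^ (-(0.12 * (i : ℝ))) := by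
  have hi0 : 0 < i := by
    have := E.hi₁
    omega
  have hiR : (0 : ℝ) < i := by exact_mod_cast hi0
  have hhR : (0 : ℝ) < hh E.δ i := by exact_mod_cast hh_pos E.δ i
  have hcH := E.hcH
  have h1 : (2 : ℝ) ^ (0.375 * ((i : ℝ) + 1)) ≤ hh E.δ i * (4 * (2 : ℝ) ^ (-(0.12 * (i : ℝ)))) := by
    have h2 : (2 : ℝ) ^ ((1 / 2 - E.δ) * (i : ℝ) - 1) ≤ hh E.δ i := by
      have h3 : ((hh E.δ i : ℕ) : ℝ) = (2 : ℝ) ^ ((⌊(1 / 2 - E.δ) * (i : ℝ)⌋₊ : ℕ) : ℝ) := by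
        unfold hh
        rw [Real.rpow_natCast]
        push_cast
        rfl
      rw [h3]
      apply Real.rpow_le_rpow_of_exponent_le (by norm_num)
      have := Nat.lt_floor_add_one ((1 / 2 - E.δ) * (i : ℝ))
      linarith
    have h4 : (4 : ℝ) = (2 : ℝ) ^ (2 : ℝ) := by
      rw [Real.rpow_two]
      norm_num
    calc (2 : ℝ) ^ (0.375 * ((i : ℝ) + 1))
        ≤ (2 : ℝ) ^ ((1 / 2 - E.δ) * (i : ℝ) - 1 + (2 + -(0.12 * (i : ℝ)))) := by
          apply Real.rpow_le_rpow_of_exponent_le (by norm_num)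
          have h5 := E.hδ'
          have h6 : E.δ * i ≤ 1 / 10 ^ 24 * i := mul_le_mul_of_nonneg_right h5 hiR.le
          have h7 : (1 : ℝ) / 10 ^ 24 * i ≤ 0.005 * i := by
            apply mul_le_mul_of_nonneg_right _ hiR.le
            norm_num
          nlinarith
      _ = (2 : ℝ) ^ ((1 / 2 - E.δ) * (i : ℝ) - 1) * (4 * (2 : ℝ) ^ (-(0.12 * (i : ℝ)))) := by
          rw [Real.rpow_add (by norm_num), Real.rpow_add (by norm_num), h4]
      _ ≤ hh E.δ i * (4 * (2 : ℝ) ^ (-(0.12 * (i : ℝ)))) :=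
          mul_le_mul_of_nonneg_right h2 (by positivity)
  have h8 : 32 * ((2 : ℝ) ^ (0.375 * ((i : ℝ) + 1)) + hh E.δ i * (2 : ℝ) ^ (-(0.12 * (i : ℝ)))) ≤
      hh E.δ i * (160 * (2 : ℝ) ^ (-(0.12 * (i : ℝ)))) := by
    linarith
  calc 32 * ((2 : ℝ) ^ (0.375 * ((i : ℝ) + 1)) + hh E.δ i * (2 : ℝ) ^ (-(0.12 * (i : ℝ)))) /
        (E.cH * hh E.δ i / i) ≤ hh E.δ i * (160 * (2 : ℝ) ^ (-(0.12 * (i : ℝ)))) /
        (E.cH * hh E.δ i / i) := div_le_div_of_nonneg_right h8 (by positivity)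
    _ = _ := by
      field_simp

/-- **KZ-XO2** -/
theorem t_XO2 : S_SM → S_FF → S_XO2 := by
  intro SM FF E
  have hcH := E.hcH
  -- growth
  have g1 : (1 : ℝ) < (2 : ℝ) ^ (0.0015 : ℝ) := Real.one_lt_rpow (by norm_num) (by norm_num)
  have g2 := tendsto_pow_const_div_const_pow_of_one_lt 1 g1
  have g3 : ∀ᶠ n : ℕ in atTop, (n : ℝ) ^ 1 / ((2 : ℝ) ^ (0.0015 : ℝ)) ^ n < E.cH / 160 :=
    (tendsto_order.mp g2).2 _ (by positivity)
  obtain ⟨J₁, hJ₁⟩ := eventually_atTop.mp g3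
  obtain ⟨r, hr⟩ : ∃ r : ℝ, r = (2 : ℝ) ^ (-0.002 : ℝ) := ⟨_, rfl⟩
  have r0 : 0 < r := by rw [hr]; positivity
  have r1 : r < 1 := by
    rw [hr]
    exact Real.rpow_lt_one_of_one_lt_of_neg (by norm_num) (by norm_num)
  have g4 := tendsto_pow_atTop_nhds_zero_of_lt_one r0.le r1
  have g5 : ∀ᶠ n : ℕ in atTop, r ^ n < (1 - r) / 20 :=
    (tendsto_order.mp g4).2 _ (by linarith)
  obtain ⟨J₂, hJ₂⟩ := eventually_atTop.mp g5
  refine ⟨max E.i₁ (max J₁ J₂), fun j hj P hP => ?_⟩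
  have j1 : E.i₁ ≤ j := (le_max_left _ _).trans hj
  have j2 : J₁ ≤ j := ((le_max_left _ _).trans (le_max_right _ _)).trans hj
  have j3 : J₂ ≤ j := ((le_max_right _ _).trans (le_max_right _ _)).trans hj
  have hsub : {V : ℕ → Bool | ¬ EvO2 E j V} ⊆ ⋃ n : ℕ, ⋃ k ∈ E.B2 (j + n),
      {V | E.Om2 V (j + n) k < E.cH / 2 * hh E.δ (j + n) / ((j + n : ℕ) : ℝ)} := by
    intro V hV
    rw [Set.mem_ofPred_eq] at hV
    unfold EvO2 at hV
    push Not at hV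
    obtain ⟨i, hji, k, hk, h⟩ := hV
    obtain ⟨n, rfl⟩ := Nat.exists_eq_add_of_le hji
    rw [Set.mem_iUnion]
    refine ⟨n, ?_⟩
    rw [Set.mem_iUnion₂]
    exact ⟨k, hk, h⟩
  have hterm : ∀ n : ℕ, P (⋃ k ∈ E.B2 (j + n),
      {V | E.Om2 V (j + n) k < E.cH / 2 * hh E.δ (j + n) / ((j + n : ℕ) : ℝ)}) ≤
      ENNReal.ofReal (r ^ j * r ^ n) := by
    intro n
    obtain ⟨i, hi⟩ : ∃ i, i = j + n := ⟨_, rfl⟩
    rw [← hi]
    have i1 : E.i₁ ≤ i := by omega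
    have i2 : J₁ ≤ i := by omega
    refine (measure_biUnion_finset_le _ _).trans ?_
    have h1 : ∀ k ∈ E.B2 i, P {V | E.Om2 V i k < E.cH / 2 * hh E.δ i / i} ≤
        ENNReal.ofReal ((160 * i / E.cH) * (2 : ℝ) ^ (-(0.12 * (i : ℝ)))) := fun k hk =>
      (one_cell SM FF E j i i1 (by omega) P hP k hk).trans
        (ENNReal.ofReal_le_ofReal (one_cell' E i i1))
    refine (sum_le_sum h1).trans ?_
    rw [sum_const, nsmul_eq_mul, ← ENNReal.ofReal_natCast, ← ENNReal.ofReal_mul (Nat.cast_nonneg _)]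
    apply ENNReal.ofReal_le_ofReal
    have h2 := E.card2 i i1
    have h3 : 160 * (i : ℝ) / E.cH ≤ (2 : ℝ) ^ (0.0015 * (i : ℝ)) := by
      have h4 := (hJ₁ i i2).le
      rw [pow_one, ← Real.rpow_natCast, ← Real.rpow_mul (by norm_num),
        div_le_iff₀ (by positivity)] at h4
      rw [div_le_iff₀ hcH]
      linarith
    calc ((E.B2 i).card : ℝ) * ((160 * i / E.cH) * (2 : ℝ) ^ (-(0.12 * (i : ℝ))))
        ≤ (2 : ℝ) ^ (0.1165 * (i : ℝ)) * ((2 : ℝ) ^ (0.0015 * (i : ℝ)) *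
            (2 : ℝ) ^ (-(0.12 * (i : ℝ)))) := by
          apply mul_le_mul h2 _ (by positivity) (by positivity)
          exact mul_le_mul_of_nonneg_right h3 (by positivity)
      _ = r ^ i := by
          rw [hr, ← Real.rpow_natCast, ← Real.rpow_mul (by norm_num),
            ← Real.rpow_add (by norm_num), ← Real.rpow_add (by norm_num)]
          congr 1
          ring
      _ = r ^ j * r ^ n := by rw [hi, pow_add]
  calc P {V : ℕ → Bool | ¬ EvO2 E j V} ≤ P (⋃ n : ℕ, ⋃ k ∈ E.B2 (j + n),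
      {V | E.Om2 V (j + n) k < E.cH / 2 * hh E.δ (j + n) / ((j + n : ℕ) : ℝ)}) :=
        measure_mono hsub
    _ ≤ ∑' n : ℕ, P (⋃ k ∈ E.B2 (j + n),
      {V | E.Om2 V (j + n) k < E.cH / 2 * hh E.δ (j + n) / ((j + n : ℕ) : ℝ)}) :=
        measure_iUnion_le _
    _ ≤ ∑' n : ℕ, ENNReal.ofReal (r ^ j * r ^ n) := ENNReal.tsum_le_tsum hterm
    _ = ENNReal.ofReal (∑' n : ℕ, r ^ j * r ^ n) :=
        (ENNReal.ofReal_tsum_of_nonneg (fun n => by positivity)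
          ((summable_geometric_of_lt_one r0.le r1).mul_left _)).symm
    _ ≤ ENNReal.ofReal (1 / 20) := by
        apply ENNReal.ofReal_le_ofReal
        rw [tsum_mul_left, tsum_geometric_of_lt_one r0.le r1]
        have h1 := (hJ₂ j j3).le
        have h2 : 0 < 1 - r := by linarith
        rw [← div_eq_mul_inv, div_le_iff₀ h2]
        linarith
    _ = 1 / 20 := by
        rw [ENNReal.ofReal_div_of_pos (by norm_num), ENNReal.ofReal_one]
        norm_num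

end Pool.Agent.Q153.KZ
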